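import Mathlib
import Pool.Agent.Helper976.Fac.J859

set_option autoImplicit false

namespace Pool.Agent.Results.MP_7607f9_an.NoFactorisation

open Set

/-- The weighted space `ℓ¹(S, ω)` over a set `S` of rationals: all functions `f : S → ℂ` with
`∑_{t ∈ S} |f t| ω(t) < ∞`. -/
def ellOne (S : Set ℚ) (ω : ℚ → ℝ) : Set (S → ℂ) :=
  {f | Summable fun t : S => ‖f t‖ * ω t}

/-- Convolution of functions on `S`: `(f * g)(t)` is the sum of `f s * g u` over all pairs
`s, u ∈ S` with `s + u = t`. For `S = (0,1]` this is the truncated convolution. -/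
noncomputable def conv (S : Set ℚ) (f g : S → ℂ) : S → ℂ := fun t =>
  ∑' p : {p : S × S // (p.1 : ℚ) + (p.2 : ℚ) = (t : ℚ)}, f p.1.1 * g p.1.2

/-- The algebra `ℓ¹(S, ω)` factors: every element is a product of two elements. -/
def Factors (S : Set ℚ) (ω : ℚ → ℝ) : Prop :=
  ∀ a ∈ ellOne S ω, ∃ b ∈ ellOne S ω, ∃ c ∈ ellOne S ω, a = conv S b c

open Classical in
/-- truncation to `(0,1]`, extended by zero -/
noncomputable def tr (S : Set ℚ) (b : S → ℂ) (q : ℚ) : ℂ :=
  if h : q ∈ S ∧ q ≤ 1 then b ⟨q, h.1⟩ else 0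

theorem tr_summable (S : Set ℚ) (ω : ℚ → ℝ) (δ : ℝ) (hδ : 0 < δ) (hωS : ∀ t ∈ S, 0 ≤ ω t)
    (hω : ∀ t ∈ S, t ≤ 1 → δ ≤ ω t) (b : S → ℂ) (hb : b ∈ ellOne S ω) :
    Summable fun q => ‖tr S b q‖ := by
  classical
  have h1 : Summable fun t : S => ‖tr S b (t : ℚ)‖ := by
    refine Summable.of_nonneg_of_le (fun _ => norm_nonneg _) (fun t => ?_) (hb.mul_left (1 / δ))
    by_cases ht : (t : ℚ) ≤ 1
    · have h2 : tr S b (t : ℚ) = b t := by
        unfold tr
        rw [dif_pos ⟨t.2, ht⟩]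
      rw [h2]
      have h3 := hω t t.2 ht
      have h4 : ‖b t‖ = 1 / δ * (‖b t‖ * δ) := by field_simp
      calc ‖b t‖ = 1 / δ * (‖b t‖ * δ) := h4
        _ ≤ 1 / δ * (‖b t‖ * ω t) := by
          apply mul_le_mul_of_nonneg_left _ (by positivity)
          exact mul_le_mul_of_nonneg_left h3 (norm_nonneg _)
    · have h2 : tr S b (t : ℚ) = 0 := by
        unfold tr
        rw [dif_neg (fun h => ht h.2)]
      rw [h2, norm_zero]
      have := hωS t t.2
      positivity
  refine (Function.Injective.summable_iff (Subtype.val_injective (p := fun q => q ∈ S)) ?_).1 h1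
  intro q hq
  have hq' : q ∉ S := fun h => hq ⟨⟨q, h⟩, rfl⟩
  unfold tr
  rw [dif_neg (fun h => hq' h.1), norm_zero]

theorem tr_conv (S : Set ℚ) (hS : ∀ t ∈ S, 0 < t) (b c : S → ℂ) (q : ℚ) (hq : q ∈ S)
    (hq1 : q ≤ 1) :
    ∑' r, tr S b r * tr S c (q - r) = conv S b c ⟨q, hq⟩ := by
  classical
  unfold conv
  set φ : {p : S × S // (p.1 : ℚ) + (p.2 : ℚ) = ((⟨q, hq⟩ : S) : ℚ)} → ℚ := fun p => p.1.1 with hφ
  have hinj : Function.Injective φ := by
    rintro ⟨⟨x, y⟩, h⟩ ⟨⟨x', y'⟩, h'⟩ he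
    simp only [hφ] at he h h'
    have hx : x = x' := Subtype.ext he
    subst hx
    have hy : y = y' := by
      apply Subtype.ext
      linarith
    subst hy
    rfl
  rw [← hinj.tsum_eq]
  · apply tsum_congr
    rintro ⟨⟨x, y⟩, h⟩
    simp only [hφ] at h ⊢
    have hx0 := hS x x.2
    have hy0 := hS y y.2
    have hy : q - (x : ℚ) = (y : ℚ) := by linarith
    rw [hy]
    have e1 : tr S b (x : ℚ) = b x := by
      unfold tr
      rw [dif_pos ⟨x.2, by linarith⟩]
    have e2 : tr S c (y : ℚ) = c y := by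
      unfold tr
      rw [dif_pos ⟨y.2, by linarith⟩]
    rw [e1, e2]
  · intro r hr
    rw [Function.mem_support] at hr
    have h1 : r ∈ S := by
      by_contra h
      apply hr
      unfold tr
      rw [dif_neg (fun h' => h h'.1), zero_mul]
    have h2 : q - r ∈ S := by
      by_contra h
      apply hr
      have : tr S c (q - r) = 0 := by
        unfold tr
        rw [dif_neg (fun h' => h h'.1)]
      rw [this, mul_zero]
    exact ⟨⟨(⟨r, h1⟩, ⟨q - r, h2⟩), by simp⟩, rfl⟩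

theorem not_factors (S : Set ℚ) (hS : ∀ t ∈ S, 0 < t) (hS1 : ∀ t, 0 < t → t ≤ 1 → t ∈ S)
    (ω : ℚ → ℝ) (hω0 : ∀ t ∈ S, 0 ≤ ω t) (δ : ℝ) (hδ : 0 < δ)
    (hω : ∀ t ∈ S, t ≤ 1 → δ ≤ ω t) (hω1 : ∀ t ∈ S, ω t ≤ 1) : ¬ Factors S ω := by
  intro H
  obtain ⟨f, hf0, hf1, hfs, hno⟩ := Pool.Agent.Helper976.Fac.J859.no_factor
  obtain ⟨b, hb, c, hc, habc⟩ := H (fun t => f t) (by
    have h1 : Summable fun t : S => ‖f (t : ℚ)‖ :=
      hfs.comp_injective (Subtype.val_injective (p := fun q => q ∈ S))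
    refine Summable.of_nonneg_of_le (fun t => mul_nonneg (norm_nonneg _) (hω0 t t.2))
      (fun t => ?_) h1
    exact mul_le_of_le_one_right (norm_nonneg _) (hω1 t t.2))
  refine hno (tr S b) (tr S c) ?_ ?_ (tr_summable S ω δ hδ hω0 hω b hb)
    (tr_summable S ω δ hδ hω0 hω c hc) ?_
  · intro q hq
    unfold tr
    rw [dif_neg (fun h => absurd (hS q h.1) (not_lt.2 hq))]
  · intro q hq
    unfold tr
    rw [dif_neg (fun h => absurd (hS q h.1) (not_lt.2 hq))]
  · intro q hq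
    rcases le_or_gt q 0 with h0 | h0
    · rw [hf0 q h0]
      symm
      convert tsum_zero with r
      rcases le_or_gt r 0 with hr | hr
      · have : tr S b r = 0 := by
          unfold tr
          rw [dif_neg (fun h => absurd (hS r h.1) (not_lt.2 hr))]
        rw [this, zero_mul]
      · have : tr S c (q - r) = 0 := by
          unfold tr
          rw [dif_neg (fun h => absurd (hS _ h.1) (not_lt.2 (by linarith)))]
        rw [this, mul_zero]
    · rw [tr_conv S hS b c q (hS1 q h0 hq) hq]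
      exact congrFun habc ⟨q, hS1 q h0 hq⟩

/-- None of the algebras `ℓ¹(ℚ⁺)`, `ℓ¹(ℚ⁺, e^{-t²})`, `ℓ¹(ℚ⁺ ∩ (0,1])` factors: in each of them
there is an element which is not a product of two elements. -/
theorem result :
    ¬ Factors (Ioi 0) (fun _ => 1) ∧
    ¬ Factors (Ioi 0) (fun t => Real.exp (-(t : ℝ) ^ 2)) ∧
    ¬ Factors (Ioc 0 1) (fun _ => 1) := by
  refine ⟨?_, ?_, ?_⟩
  · exact not_factors _ (fun t ht => ht) (fun t h0 _ => h0) _ (fun _ _ => zero_le_one) 1 one_pos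
      (fun _ _ _ => le_rfl) (fun _ _ => le_rfl)
  · refine not_factors _ (fun t ht => ht) (fun t h0 _ => h0) _ (fun t _ => (Real.exp_pos _).le)
      (Real.exp (-1)) (Real.exp_pos _) (fun t ht h1 => ?_) (fun t _ => ?_)
    · apply Real.exp_le_exp.2
      have ht0 : (0 : ℝ) < (t : ℝ) := by exact_mod_cast ht
      have ht1 : (t : ℝ) ≤ 1 := by exact_mod_cast h1
      nlinarith
    · rw [Real.exp_le_one_iff]
      nlinarith [sq_nonneg (t : ℝ)]
  · exact not_factors (Ioc 0 1) (fun t ht => ht.1) (fun t h0 h1 => ⟨h0, h1⟩) _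
      (fun _ _ => zero_le_one) 1
      one_pos (fun _ _ _ => le_rfl) (fun _ _ => le_rfl)

end Pool.Agent.Results.MP_7607f9_an.NoFactorisation
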