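import Mathlib
import Pool.Agent.L1Q.Main

set_option autoImplicit false

namespace Pool.Agent.Results.MP_7607f9_an.NotFactor

open Set

/-- The weighted space `ℓ¹(S, ω)` over a set `S` of rationals: all functions `f : S → ℂ` with
`∑_{t ∈ S} |f t| ω(t) < ∞`. -/
def ellOne (S : Set ℚ) (ω : ℚ → ℝ) : Set (S → ℂ) :=
  {f | Summable fun t : S => ‖f t‖ * ω t}

/-- Convolution of functions on `S`: `(f * g)(t)` is the sum of `f s * g u` over all pairs
`s, u ∈ S` with `s + u = t`. For `S = (0,1]` this is the truncated convolution. -/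
noncomputable def conv (S : Set ℚ) (f g : S → ℂ) : S → ℂ := fun t =>
  ∑' p : {p : S × S // (p.1 : ℚ) + (p.2 : ℚ) = (t : ℚ)}, f p.1.1 * g p.1.2

/-- The algebra `ℓ¹(S, ω)` factors: every element is a product of two elements. -/
def Factors (S : Set ℚ) (ω : ℚ → ℝ) : Prop :=
  ∀ a ∈ ellOne S ω, ∃ b ∈ ellOne S ω, ∃ c ∈ ellOne S ω, conv S b c = a

open Classical in
/-- extension by zero of the part of `b` living on `(0,1]` -/
noncomputable def ext (S : Set ℚ) (b : S → ℂ) (q : ℚ) : ℂ :=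
  if h : q ∈ S ∧ 0 < q ∧ q ≤ 1 then b ⟨q, h.1⟩ else 0

theorem ext_nonpos (S : Set ℚ) (b : S → ℂ) (q : ℚ) (hq : q ≤ 0) : ext S b q = 0 := by
  unfold ext
  rw [dif_neg]
  rintro ⟨-, h, -⟩
  exact absurd h (not_lt.2 hq)

theorem ext_summable (S : Set ℚ) (ω : ℚ → ℝ) (κ : ℝ) (hκ : 0 < κ)
    (hω : ∀ q ∈ S, 0 < q → q ≤ 1 → κ ≤ ω q) (hω0 : ∀ q ∈ S, 0 ≤ ω q)
    (b : S → ℂ) (hb : b ∈ ellOne S ω) : Summable fun q : ℚ => ‖ext S b q‖ := by
  have h1 : Summable fun t : S => ‖ext S b t‖ := by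
    have h2 : Summable fun t : S => κ⁻¹ * (‖b t‖ * ω t) := hb.mul_left _
    refine Summable.of_nonneg_of_le (fun t => norm_nonneg _) (fun t => ?_) h2
    unfold ext
    split_ifs with h
    · have h3 := hω t t.2 h.2.1 h.2.2
      have h4 : ‖b t‖ = κ⁻¹ * (‖b t‖ * κ) := by field_simp
      calc ‖b ⟨(t : ℚ), h.1⟩‖ = ‖b t‖ := rfl
        _ = κ⁻¹ * (‖b t‖ * κ) := h4
        _ ≤ κ⁻¹ * (‖b t‖ * ω t) := by gcongr
    · rw [norm_zero]
      have := hω0 t t.2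
      positivity
  have h3 := (Subtype.val_injective (p := fun q : ℚ => q ∈ S)).summable_iff
    (f := fun q : ℚ => ‖ext S b q‖) (by
      intro q hq
      have : q ∉ S := by
        intro h
        exact hq ⟨⟨q, h⟩, rfl⟩
      unfold ext
      rw [dif_neg (fun h => this h.1), norm_zero])
  exact h3.1 h1

theorem ext_conv (S : Set ℚ) (hS0 : ∀ q ∈ S, 0 < q) (b c : S → ℂ) (t : ℚ) (ht : t ∈ S)
    (ht1 : t ≤ 1) : ∑' r : ℚ, ext S b r * ext S c (t - r) = conv S b c ⟨t, ht⟩ := by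
  unfold conv
  have hinj : Function.Injective
      (fun p : {p : S × S // (p.1 : ℚ) + (p.2 : ℚ) = t} => (p.1.1 : ℚ)) := by
    rintro ⟨⟨⟨s, hs⟩, ⟨u, hu⟩⟩, h1⟩ ⟨⟨⟨s', hs'⟩, ⟨u', hu'⟩⟩, h2⟩ h3
    simp only at h1 h2 h3
    subst h3
    have : u = u' := by linarith
    subst this
    rfl
  rw [← hinj.tsum_eq]
  · apply tsum_congr
    rintro ⟨⟨⟨s, hs⟩, ⟨u, hu⟩⟩, h1⟩
    simp only at h1 ⊢
    have hs0 := hS0 s hs
    have hu0 := hS0 u hu
    have e1 : t - s = u := by linarith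
    have e2 : ext S b s = b ⟨s, hs⟩ := by
      unfold ext
      rw [dif_pos ⟨hs, hs0, by linarith⟩]
    have e3 : ext S c u = c ⟨u, hu⟩ := by
      unfold ext
      rw [dif_pos ⟨hu, hu0, by linarith⟩]
    rw [e1, e2, e3]
  · intro r hr
    rw [Function.mem_support] at hr
    have h1 : ext S b r ≠ 0 := left_ne_zero_of_mul hr
    have h2 : ext S c (t - r) ≠ 0 := right_ne_zero_of_mul hr
    have h3 : r ∈ S := by
      by_contra h
      exact h1 (by unfold ext; rw [dif_neg (fun h' => h h'.1)])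
    have h4 : t - r ∈ S := by
      by_contra h
      exact h2 (by unfold ext; rw [dif_neg (fun h' => h h'.1)])
    exact ⟨⟨(⟨r, h3⟩, ⟨t - r, h4⟩), by simp⟩, rfl⟩

/-- General form: any semigroup-like index set between `(0,1] ∩ ℚ` and `(0,∞) ∩ ℚ`. -/
theorem not_factors (S : Set ℚ) (hS0 : ∀ q ∈ S, 0 < q) (hS1 : ∀ q : ℚ, 0 < q → q ≤ 1 → q ∈ S)
    (ω : ℚ → ℝ) (κ B : ℝ) (hκ : 0 < κ)
    (hω : ∀ q ∈ S, 0 < q → q ≤ 1 → κ ≤ ω q) (hωB : ∀ q ∈ S, 0 < q → q ≤ 1 → ω q ≤ B)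
    (hω0 : ∀ q ∈ S, 0 ≤ ω q) : ¬ Factors S ω := by
  intro hF
  have ha : (fun t : S => Pool.Agent.L1Q.f₀ t) ∈ ellOne S ω := by
    change Summable fun t : S => ‖Pool.Agent.L1Q.f₀ t‖ * ω t
    have h1 : Summable fun t : S => ‖Pool.Agent.L1Q.f₀ t‖ * B :=
      (Pool.Agent.L1Q.f₀_summable.comp_injective Subtype.val_injective).mul_right B
    refine Summable.of_nonneg_of_le (fun t => mul_nonneg (norm_nonneg _) (hω0 t t.2)) (fun t => ?_) h1
    rcases le_or_gt (t : ℚ) 1 with h | h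
    · have := hωB t t.2 (hS0 t t.2) h
      gcongr
    · rw [Pool.Agent.L1Q.f₀_gt_one _ h, norm_zero, zero_mul, zero_mul]
  obtain ⟨b, hb, c, hc, hbc⟩ := hF _ ha
  refine Pool.Agent.L1Q.no_factor (ext S b) (ext S c) (ext_nonpos S b) (ext_nonpos S c)
    (ext_summable S ω κ hκ hω hω0 b hb) (ext_summable S ω κ hκ hω hω0 c hc) ?_
  intro t ht1
  rcases le_or_gt t 0 with ht | ht
  · rw [Pool.Agent.L1Q.f₀_nonpos t ht]
    have : ∀ r : ℚ, ext S b r * ext S c (t - r) = 0 := by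
      intro r
      rcases le_or_gt r 0 with hr | hr
      · rw [ext_nonpos S b r hr, zero_mul]
      · rw [ext_nonpos S c (t - r) (by linarith), mul_zero]
    simp only [this, tsum_zero]
  · rw [ext_conv S hS0 b c t (hS1 t ht ht1) ht1, hbc]

/-- Q1, all three algebras: none of `ℓ¹(ℚ⁺)`, `ℓ¹(ℚ⁺, e^{-t²})`, `ℓ¹(ℚ⁺ ∩ (0,1])` factors. -/
theorem result :
    ¬ Factors (Ioi 0) (fun _ => 1) ∧
    ¬ Factors (Ioi 0) (fun t => Real.exp (-(t : ℝ) ^ 2)) ∧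
    ¬ Factors (Ioc 0 1) (fun _ => 1) := by
  refine ⟨?_, ?_, ?_⟩
  · exact not_factors _ (fun q hq => hq) (fun q h0 _ => h0) _ 1 1 one_pos (fun _ _ _ _ => le_rfl)
      (fun _ _ _ _ => le_rfl) (fun _ _ => zero_le_one)
  · refine not_factors _ (fun q hq => hq) (fun q h0 _ => h0) _ (Real.exp (-1)) 1 (Real.exp_pos _)
      (fun q _ h0 h1 => ?_) (fun q _ h0 h1 => ?_) (fun _ _ => (Real.exp_pos _).le)
    · have h2 : (q : ℝ) ≤ 1 := by exact_mod_cast h1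
      have h3 : (0 : ℝ) ≤ q := by exact_mod_cast h0.le
      exact Real.exp_le_exp.2 (by nlinarith)
    · exact Real.exp_le_one_iff.2 (by nlinarith [sq_nonneg (q : ℝ)])
  · exact not_factors (Ioc 0 1) (fun q hq => hq.1) (fun q h0 h1 => ⟨h0, h1⟩) _ 1 1 one_pos
      (fun _ _ _ _ => le_rfl) (fun _ _ _ _ => le_rfl) (fun _ _ => zero_le_one)

end Pool.Agent.Results.MP_7607f9_an.NotFactor
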