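import Mathlib

set_option autoImplicit false

namespace Pool.Agent.Results.MP_7607f9_an.SquareEqualsA

open Set Filter Topology

/-- The weighted space `ℓ¹(S, ω)` over a set `S` of rationals: all functions `f : S → ℂ` with
`∑_{t ∈ S} |f t| ω(t) < ∞`. -/
def ellOne (S : Set ℚ) (ω : ℚ → ℝ) : Set (S → ℂ) :=
  {f | Summable fun t : S => ‖f t‖ * ω t}

/-- Convolution of functions on `S`: `(f * g)(t)` is the sum of `f s * g u` over all pairs
`s, u ∈ S` with `s + u = t`. For `S = (0,1]` this is the truncated convolution. -/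
noncomputable def conv (S : Set ℚ) (f g : S → ℂ) : S → ℂ := fun t =>
  ∑' p : {p : S × S // (p.1 : ℚ) + (p.2 : ℚ) = (t : ℚ)}, f p.1.1 * g p.1.2

noncomputable section

/-- Collecting a family of coefficients placed at the points `φ i`. -/
def push {I X : Type*} (a : I → ℂ) (φ : I → X) (x : X) : ℂ :=
  ∑' i : {i // φ i = x}, a i

lemma summable_fiber {I X : Type*} {F : I → ℝ} (φ : I → X) (hF : Summable F) :
    Summable (fun x : X => ∑' i : {i // φ i = x}, F i) ∧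
    ∑' x : X, ∑' i : {i // φ i = x}, F i = ∑' i, F i := by
  have h1 : Summable (fun p : (Σ x : X, {i // φ i = x}) => F p.2) := by
    have := (Equiv.sigmaFiberEquiv φ).summable_iff.mpr hF
    exact this
  refine ⟨h1.sigma, ?_⟩
  rw [← h1.tsum_sigma' (fun x => ?_)]
  · exact (Equiv.sigmaFiberEquiv φ).tsum_eq F
  · exact hF.comp_injective Subtype.val_injective

/-- fibres -/
lemma fiber_summable {I X : Type*} {ω : X → ℝ} (hω : ∀ t, 0 < ω t) (a : I → ℂ) (φ : I → X)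
    (h : Summable fun i => ‖a i‖ * ω (φ i)) (x : X) :
    Summable (fun i : {i // φ i = x} => ‖a i‖) := by
  have hs : Summable (fun i : {i // φ i = x} => ‖a i‖ * ω x) := by
    have := h.comp_injective (Subtype.val_injective (p := fun i => φ i = x))
    refine this.congr ?_
    rintro ⟨i, hi⟩
    simp only [Function.comp, hi]
  exact (summable_mul_right_iff (hω x).ne').mp hs

lemma push_mem {I X : Type*} {ω : X → ℝ} (hω : ∀ t, 0 < ω t) (a : I → ℂ) (φ : I → X)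
    (h : Summable fun i => ‖a i‖ * ω (φ i)) :
    (Summable fun t : X => ‖push a φ t‖ * ω t) ∧
      ∑' t : X, ‖push a φ t‖ * ω t ≤ ∑' i, ‖a i‖ * ω (φ i) := by
  obtain ⟨h1, h2⟩ := summable_fiber φ h
  have key : ∀ t : X, ‖push a φ t‖ * ω t ≤ ∑' i : {i // φ i = t}, ‖a i‖ * ω (φ i) := by
    intro t
    have e1 : ∑' i : {i // φ i = t}, ‖a i‖ * ω (φ i) = (∑' i : {i // φ i = t}, ‖a i‖) * ω t := by
      rw [← tsum_mul_right]
      apply tsum_congr
      rintro ⟨i, hi⟩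
      simp only [hi]
    rw [e1]
    apply mul_le_mul_of_nonneg_right _ (hω t).le
    exact norm_tsum_le_tsum_norm (fiber_summable hω a φ h t)
  have hs : Summable fun t : X => ‖push a φ t‖ * ω t :=
    Summable.of_nonneg_of_le (fun t => mul_nonneg (norm_nonneg _) (hω t).le) key h1
  refine ⟨hs, ?_⟩
  rw [← h2]
  exact hs.tsum_le_tsum key h1

section push

variable {S : Set ℚ} {ω : ℚ → ℝ}

lemma mul_fam {I J : Type*} (a : I → ℂ) (b : J → ℂ)
    (ha : Summable (fun i : I => ‖a i‖)) (hb : Summable (fun j : J => ‖b j‖)) :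
    Summable (fun q : I × J => a q.1 * b q.2) :=
  summable_mul_of_summable_norm ha hb

lemma mul_fam_tsum {I J : Type*} (a : I → ℂ) (b : J → ℂ)
    (ha : Summable (fun i : I => ‖a i‖)) (hb : Summable (fun j : J => ‖b j‖)) :
    (∑' i, a i) * (∑' j, b j) = ∑' q : I × J, a q.1 * b q.2 :=
  tsum_mul_tsum_of_summable_norm ha hb

lemma fiber_mul {I J X Y : Type*} (a : I → ℂ) (φ : I → X) (b : J → ℂ) (ψ : J → Y) (s : X) (t : Y)
    (ha : Summable (fun i : {i // φ i = s} => ‖a i.1‖))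
    (hb : Summable (fun j : {j // ψ j = t} => ‖b j.1‖)) :
    push a φ s * push b ψ t = ∑' q : {i // φ i = s} × {j // ψ j = t}, a q.1.1 * b q.2.1 :=
  mul_fam_tsum (fun i : {i // φ i = s} => a i.1) (fun j : {j // ψ j = t} => b j.1) ha hb

lemma fiber_mul_summable {I J X Y : Type*} (a : I → ℂ) (φ : I → X) (b : J → ℂ) (ψ : J → Y)
    (s : X) (t : Y) (ha : Summable (fun i : {i // φ i = s} => ‖a i.1‖))
    (hb : Summable (fun j : {j // ψ j = t} => ‖b j.1‖)) :
    Summable (fun q : {i // φ i = s} × {j // ψ j = t} => a q.1.1 * b q.2.1) :=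
  mul_fam (fun i : {i // φ i = s} => a i.1) (fun j : {j // ψ j = t} => b j.1) ha hb

/-- the fibre of a sum as a union of products of fibres -/
def fiberEquiv {I J : Type*} (φ : I → S) (ψ : J → S) (x : S) :
    (Σ p : {p : S × S // (p.1 : ℚ) + (p.2 : ℚ) = (x : ℚ)},
      {i // φ i = p.1.1} × {j // ψ j = p.1.2}) ≃
      {k : I × J // (φ k.1 : ℚ) + ψ k.2 = x} where
  toFun q := ⟨(q.2.1.1, q.2.2.1), by
        obtain ⟨⟨⟨s, t⟩, hp⟩, ⟨i, hi⟩, ⟨j, hj⟩⟩ := q
        simp only at hi hj hp ⊢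
        rw [hi, hj]; exact hp⟩
  invFun k := ⟨⟨(φ k.1.1, ψ k.1.2), k.2⟩, ⟨⟨k.1.1, rfl⟩, ⟨k.1.2, rfl⟩⟩⟩
  left_inv := by
        rintro ⟨⟨⟨s, t⟩, hp⟩, ⟨i, hi⟩, ⟨j, hj⟩⟩
        simp only at hi hj
        subst hi hj
        rfl
  right_inv := by
        rintro ⟨⟨i, j⟩, hk⟩
        rfl

lemma conv_fam_summable {I J : Type*} (hω : ∀ t : S, 0 < ω t)
    (hsub : ∀ s t u : S, (s : ℚ) + t = u → ω u ≤ ω s * ω t)
    (a : I → ℂ) (φ : I → S) (b : J → ℂ) (ψ : J → S)
    (ha : Summable fun i => ‖a i‖ * ω (φ i)) (hb : Summable fun i => ‖b i‖ * ω (ψ i)) (x : S) :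
    Summable (fun k : {k : I × J // (φ k.1 : ℚ) + ψ k.2 = x} => a k.1.1 * b k.1.2) := by
  have h1 : Summable (fun k : I × J => (‖a k.1‖ * ω (φ k.1)) * (‖b k.2‖ * ω (ψ k.2))) :=
    ha.mul_of_nonneg hb (fun i => mul_nonneg (norm_nonneg _) (hω _).le)
      (fun i => mul_nonneg (norm_nonneg _) (hω _).le)
  have h2 := h1.comp_injective
    (Subtype.val_injective (p := fun k : I × J => (φ k.1 : ℚ) + ψ k.2 = x))
  have h3 := h2.mul_right (ω x)⁻¹
  refine Summable.of_norm_bounded h3 ?_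
  rintro ⟨⟨i, j⟩, hk⟩
  simp only [Function.comp, norm_mul]
  have h4 := hsub (φ i) (ψ j) x hk
  rw [le_mul_inv_iff₀ (hω x)]
  calc ‖a i‖ * ‖b j‖ * ω x ≤ ‖a i‖ * ‖b j‖ * (ω (φ i) * ω (ψ j)) := by
        apply mul_le_mul_of_nonneg_left h4 (by positivity)
    _ = _ := by ring

lemma conv_push {I J : Type*} (hω : ∀ t : S, 0 < ω t)
    (hsub : ∀ s t u : S, (s : ℚ) + t = u → ω u ≤ ω s * ω t)
    (a : I → ℂ) (φ : I → S) (b : J → ℂ) (ψ : J → S)
    (ha : Summable fun i => ‖a i‖ * ω (φ i)) (hb : Summable fun i => ‖b i‖ * ω (ψ i)) (x : S) :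
    conv S (push a φ) (push b ψ) x =
      ∑' k : {k : I × J // (φ k.1 : ℚ) + ψ k.2 = x}, a k.1.1 * b k.1.2 := by
  have hab := conv_fam_summable hω hsub a φ b ψ ha hb x
  have hab2 := (fiberEquiv φ ψ x).summable_iff.mpr hab
  have h0 := (fiberEquiv φ ψ x).tsum_eq
    (fun k : {k : I × J // (φ k.1 : ℚ) + ψ k.2 = x} => a k.1.1 * b k.1.2)
  rw [← h0]
  have fa := fun x => fiber_summable (ω := fun t : S => ω t) hω a φ ha x
  have fb := fun x => fiber_summable (ω := fun t : S => ω t) hω b ψ hb x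
  have hsig := Summable.tsum_sigma' (f := fun q => a ((fiberEquiv φ ψ x) q).1.1 *
    b ((fiberEquiv φ ψ x) q).1.2) (fun p => fiber_mul_summable a φ b ψ p.1.1 p.1.2
      (fa p.1.1) (fb p.1.2)) hab2
  rw [hsig]
  unfold conv
  apply tsum_congr
  intro p
  exact fiber_mul a φ b ψ p.1.1 p.1.2 (fa p.1.1) (fb p.1.2)

/-- products of elements stay in the algebra -/
lemma conv_mem (hω : ∀ t : S, 0 < ω t)
    (hsub : ∀ s t u : S, (s : ℚ) + t = u → ω u ≤ ω s * ω t)
    {f g : S → ℂ} (hf : f ∈ ellOne S ω) (hg : g ∈ ellOne S ω) : conv S f g ∈ ellOne S ω := by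
  have h1 : Summable (fun k : S × S => (‖f k.1‖ * ω k.1) * (‖g k.2‖ * ω k.2)) :=
    Summable.mul_of_nonneg hf hg (fun i => mul_nonneg (norm_nonneg _) (hω _).le)
      (fun i => mul_nonneg (norm_nonneg _) (hω _).le)
  have hinj : Function.Injective
      (fun q : (Σ x : S, {p : S × S // (p.1 : ℚ) + (p.2 : ℚ) = (x : ℚ)}) => q.2.1) := by
    rintro ⟨x, ⟨p, hp⟩⟩ ⟨y, ⟨q, hq⟩⟩ h
    simp only at h
    subst h
    have : x = y := Subtype.ext (hp.symm.trans hq)
    subst this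
    rfl
  have h2 := h1.comp_injective hinj
  have h3 := h2.sigma
  have h4 := fun x => h2.sigma_factor x
  refine Summable.of_nonneg_of_le (fun t => mul_nonneg (norm_nonneg _) (hω t).le) ?_ h3
  intro x
  have h5 : ∀ p : {p : S × S // (p.1 : ℚ) + (p.2 : ℚ) = (x : ℚ)},
      ‖f p.1.1 * g p.1.2‖ * ω x ≤ (‖f p.1.1‖ * ω p.1.1) * (‖g p.1.2‖ * ω p.1.2) := by
    rintro ⟨⟨s, t⟩, hp⟩
    have := hsub s t x hp
    calc ‖f s * g t‖ * ω x ≤ ‖f s * g t‖ * (ω s * ω t) := by gcongr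
      _ = _ := by rw [norm_mul]; ring
  have h6 : Summable (fun p : {p : S × S // (p.1 : ℚ) + (p.2 : ℚ) = (x : ℚ)} =>
      ‖f p.1.1 * g p.1.2‖ * ω x) :=
    Summable.of_nonneg_of_le (fun t => mul_nonneg (norm_nonneg _) (hω x).le) h5 (h4 x)
  have h7 := (summable_mul_right_iff (hω x).ne').mp h6
  calc ‖conv S f g x‖ * ω x ≤ (∑' p : {p : S × S // (p.1 : ℚ) + (p.2 : ℚ) = (x : ℚ)},
        ‖f p.1.1 * g p.1.2‖) * ω x := by
        apply mul_le_mul_of_nonneg_right _ (hω x).le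
        exact norm_tsum_le_tsum_norm h7
    _ = ∑' p : {p : S × S // (p.1 : ℚ) + (p.2 : ℚ) = (x : ℚ)}, ‖f p.1.1 * g p.1.2‖ * ω x :=
        (tsum_mul_right).symm
    _ ≤ _ := h6.tsum_le_tsum h5 (h4 x)

lemma ellOne_add (hω : ∀ t : S, 0 < ω t) {f g : S → ℂ} (hf : f ∈ ellOne S ω)
    (hg : g ∈ ellOne S ω) : f + g ∈ ellOne S ω := by
  refine Summable.of_nonneg_of_le (fun t => mul_nonneg (norm_nonneg _) (hω t).le) ?_
    (Summable.add hf hg)
  intro t
  calc ‖(f + g) t‖ * ω t ≤ (‖f t‖ + ‖g t‖) * ω t := by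
        apply mul_le_mul_of_nonneg_right (norm_add_le _ _) (hω t).le
    _ = _ := by ring

lemma ellOne_smul (z : ℂ) {f : S → ℂ} (hf : f ∈ ellOne S ω) : z • f ∈ ellOne S ω := by
  have := Summable.mul_left ‖z‖ hf
  refine this.congr ?_
  intro t
  simp [mul_assoc]

end push


section neumann

variable {X : Type*} {w : X → ℝ}

/-- The family attached to `g`. -/
def opE (a : X → ℕ → ℂ) (φ : X → ℕ → X) (g : X → ℂ) : X → ℂ :=
  push (fun k : X × ℕ => g k.1 * a k.1 k.2) (fun k => φ k.1 k.2)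

lemma fam_summable (hw : ∀ t, 0 < w t) (a : X → ℕ → ℂ) (φ : X → ℕ → X) {c : ℝ}
    (hs : ∀ t, Summable fun n => ‖a t n‖ * w (φ t n))
    (hb : ∀ t, ∑' n, ‖a t n‖ * w (φ t n) ≤ c * w t)
    {g : X → ℂ} (hg : Summable fun t => ‖g t‖ * w t) :
    (Summable fun k : X × ℕ => ‖g k.1 * a k.1 k.2‖ * w (φ k.1 k.2)) ∧
    ∑' k : X × ℕ, ‖g k.1 * a k.1 k.2‖ * w (φ k.1 k.2) ≤ c * ∑' t, ‖g t‖ * w t := by
  have e1 : ∀ t n, ‖g t * a t n‖ * w (φ t n) = ‖g t‖ * (‖a t n‖ * w (φ t n)) := by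
    intro t n; rw [norm_mul]; ring
  have h1 : ∀ t, Summable fun n => ‖g t * a t n‖ * w (φ t n) := by
    intro t
    simp only [e1]
    exact (hs t).mul_left _
  have h2 : ∀ t, ∑' n, ‖g t * a t n‖ * w (φ t n) ≤ c * (‖g t‖ * w t) := by
    intro t
    simp only [e1]
    rw [tsum_mul_left]
    calc ‖g t‖ * ∑' n, ‖a t n‖ * w (φ t n) ≤ ‖g t‖ * (c * w t) := by
          gcongr; exact hb t
      _ = _ := by ring
  have h0 : ∀ k : X × ℕ, 0 ≤ ‖g k.1 * a k.1 k.2‖ * w (φ k.1 k.2) :=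
    fun k => mul_nonneg (norm_nonneg _) (hw _).le
  have h3 : Summable fun t => ∑' n, ‖g t * a t n‖ * w (φ t n) :=
    Summable.of_nonneg_of_le (fun t => tsum_nonneg fun n => h0 (t, n)) h2 (hg.mul_left c)
  have h4 : Summable fun k : X × ℕ => ‖g k.1 * a k.1 k.2‖ * w (φ k.1 k.2) :=
    (summable_prod_of_nonneg h0).mpr ⟨h1, h3⟩
  refine ⟨h4, ?_⟩
  rw [h4.tsum_prod' h1, ← tsum_mul_left]
  exact h3.tsum_le_tsum h2 (hg.mul_left c)

lemma opE_bound (hw : ∀ t, 0 < w t) (a : X → ℕ → ℂ) (φ : X → ℕ → X) {c : ℝ}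
    (hs : ∀ t, Summable fun n => ‖a t n‖ * w (φ t n))
    (hb : ∀ t, ∑' n, ‖a t n‖ * w (φ t n) ≤ c * w t)
    {g : X → ℂ} (hg : Summable fun t => ‖g t‖ * w t) :
    (Summable fun t => ‖opE a φ g t‖ * w t) ∧
    ∑' t, ‖opE a φ g t‖ * w t ≤ c * ∑' t, ‖g t‖ * w t := by
  obtain ⟨h1, h2⟩ := fam_summable hw a φ hs hb hg
  obtain ⟨h3, h4⟩ := push_mem hw (fun k : X × ℕ => g k.1 * a k.1 k.2) (fun k => φ k.1 k.2) h1
  exact ⟨h3, h4.trans h2⟩

/-- Neumann series in a weighted `ℓ¹` space, for the operator `1 + E`. -/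
lemma neumann (hw : ∀ t, 0 < w t) (a : X → ℕ → ℂ) (φ : X → ℕ → X) {c : ℝ} (hc0 : 0 ≤ c)
    (hc : c < 1) (hs : ∀ t, Summable fun n => ‖a t n‖ * w (φ t n))
    (hb : ∀ t, ∑' n, ‖a t n‖ * w (φ t n) ≤ c * w t)
    {f : X → ℂ} (hf : Summable fun t => ‖f t‖ * w t) :
    ∃ g : X → ℂ, (Summable fun t => ‖g t‖ * w t) ∧
      (∑' t, ‖g t‖ * w t ≤ (1 - c)⁻¹ * ∑' t, ‖f t‖ * w t) ∧
      ∀ x, f x = g x + opE a φ g x := by
  let G : ℕ → X → ℂ := fun i => Nat.rec f (fun _ h => fun x => - opE a φ h x) i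
  have hG0 : G 0 = f := rfl
  have hGs : ∀ i, G (i + 1) = fun x => - opE a φ (G i) x := fun i => rfl
  set N := ∑' t, ‖f t‖ * w t with hN
  have hN0 : 0 ≤ N := tsum_nonneg fun t => mul_nonneg (norm_nonneg _) (hw _).le
  have hG : ∀ i, (Summable fun t => ‖G i t‖ * w t) ∧ ∑' t, ‖G i t‖ * w t ≤ c ^ i * N := by
    intro i
    induction i with
    | zero => rw [hG0]; simp [hf, hN]
    | succ i ih =>
      obtain ⟨h1, h2⟩ := opE_bound hw a φ hs hb ih.1
      rw [hGs]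
      simp only [norm_neg]
      refine ⟨h1, h2.trans ?_⟩
      calc c * ∑' t, ‖G i t‖ * w t ≤ c * (c ^ i * N) := by
            apply mul_le_mul_of_nonneg_left ih.2 hc0
        _ = _ := by ring
  have hgeo : Summable fun i : ℕ => c ^ i * N := (summable_geometric_of_lt_one hc0 hc).mul_right N
  have hgt : ∑' i : ℕ, c ^ i * N = (1 - c)⁻¹ * N := by
    rw [tsum_mul_right, tsum_geometric_of_lt_one hc0 hc]
  have h0 : ∀ k : ℕ × X, 0 ≤ ‖G k.1 k.2‖ * w k.2 :=
    fun k => mul_nonneg (norm_nonneg _) (hw _).le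
  have hprod : Summable fun k : ℕ × X => ‖G k.1 k.2‖ * w k.2 :=
    (summable_prod_of_nonneg h0).mpr ⟨fun i => (hG i).1,
      Summable.of_nonneg_of_le (fun i => tsum_nonneg fun t => h0 (i, t)) (fun i => (hG i).2) hgeo⟩
  have hprod' : Summable fun k : X × ℕ => ‖G k.2 k.1‖ * w k.1 :=
    hprod.comp_injective (i := Prod.swap) Prod.swap_injective
  have htot : ∑' k : ℕ × X, ‖G k.1 k.2‖ * w k.2 ≤ (1 - c)⁻¹ * N := by
    rw [hprod.tsum_prod' (fun i => (hG i).1), ← hgt]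
    exact hprod.prod.tsum_le_tsum (fun i => (hG i).2) hgeo
  have hx : ∀ x, Summable fun i => ‖G i x‖ := by
    intro x
    have := hprod'.prod_factor x
    exact (summable_mul_right_iff (hw x).ne').mp this
  let g : X → ℂ := fun x => ∑' i, G i x
  have hgx : ∀ x, ‖g x‖ * w x ≤ ∑' i, ‖G i x‖ * w x := by
    intro x
    rw [tsum_mul_right]
    apply mul_le_mul_of_nonneg_right _ (hw x).le
    exact norm_tsum_le_tsum_norm (hx x)
  have hg : Summable fun t => ‖g t‖ * w t :=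
    Summable.of_nonneg_of_le (fun t => mul_nonneg (norm_nonneg _) (hw _).le) hgx hprod'.prod
  refine ⟨g, hg, ?_, ?_⟩
  · calc ∑' t, ‖g t‖ * w t ≤ ∑' t, ∑' i, ‖G i t‖ * w t := hg.tsum_le_tsum hgx hprod'.prod
      _ = ∑' k : X × ℕ, ‖G k.2 k.1‖ * w k.1 := (hprod'.tsum_prod' (fun x => hprod'.prod_factor x)).symm
      _ = ∑' k : ℕ × X, ‖G k.1 k.2‖ * w k.2 := by
          exact (Equiv.prodComm X ℕ).tsum_eq (fun k : ℕ × X => ‖G k.1 k.2‖ * w k.2)
      _ ≤ _ := htot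
  · intro x
    -- opE g x = ∑ i, opE (G i) x
    have hE : opE a φ g x = ∑' i, opE a φ (G i) x := by
      have h1 : ∀ i, Summable fun k : X × ℕ => ‖G i k.1 * a k.1 k.2‖ * w (φ k.1 k.2) :=
        fun i => (fam_summable hw a φ hs hb (hG i).1).1
      have h2 : ∀ i, ∑' k : X × ℕ, ‖G i k.1 * a k.1 k.2‖ * w (φ k.1 k.2) ≤ c * (c ^ i * N) :=
        fun i => (fam_summable hw a φ hs hb (hG i).1).2.trans
          (mul_le_mul_of_nonneg_left (hG i).2 hc0)
      have h3 : Summable fun p : ℕ × (X × ℕ) =>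
          ‖G p.1 p.2.1 * a p.2.1 p.2.2‖ * w (φ p.2.1 p.2.2) :=
        (summable_prod_of_nonneg (fun p => mul_nonneg (norm_nonneg _) (hw _).le)).mpr
          ⟨h1, Summable.of_nonneg_of_le
            (fun i => tsum_nonneg fun t => mul_nonneg (norm_nonneg _) (hw _).le) h2
            (hgeo.mul_left c)⟩
      have h4 : Summable fun p : ℕ × {k : X × ℕ // φ k.1 k.2 = x} =>
          G p.1 p.2.1.1 * a p.2.1.1 p.2.1.2 := by
        have hinj : Function.Injective (fun p : ℕ × {k : X × ℕ // φ k.1 k.2 = x} =>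
            (p.1, p.2.1)) := by
          rintro ⟨i, k⟩ ⟨j, l⟩ h
          simp only [Prod.mk.injEq] at h
          exact Prod.ext h.1 (Subtype.ext h.2)
        have h5 := h3.comp_injective hinj
        have h6 : Summable fun p : ℕ × {k : X × ℕ // φ k.1 k.2 = x} =>
            ‖G p.1 p.2.1.1 * a p.2.1.1 p.2.1.2‖ * w x := by
          refine h5.congr ?_
          rintro ⟨i, ⟨k, hk⟩⟩
          simp only [Function.comp]
          rw [hk]
        exact ((summable_mul_right_iff (hw x).ne').mp h6).of_norm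
      have h4' : Summable fun p : {k : X × ℕ // φ k.1 k.2 = x} × ℕ =>
          G p.2 p.1.1.1 * a p.1.1.1 p.1.1.2 :=
        h4.comp_injective (i := Prod.swap) Prod.swap_injective
      unfold opE push
      rw [← h4.tsum_prod' (fun i => h4.prod_factor i)]
      have h7 := h4'.tsum_prod' (fun k => h4'.prod_factor k)
      have h8 : ∑' p : {k : X × ℕ // φ k.1 k.2 = x} × ℕ, G p.2 p.1.1.1 * a p.1.1.1 p.1.1.2 =
          ∑' p : ℕ × {k : X × ℕ // φ k.1 k.2 = x}, G p.1 p.2.1.1 * a p.2.1.1 p.2.1.2 :=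
        (Equiv.prodComm {k : X × ℕ // φ k.1 k.2 = x} ℕ).tsum_eq
          (fun p : ℕ × {k : X × ℕ // φ k.1 k.2 = x} => G p.1 p.2.1.1 * a p.2.1.1 p.2.1.2)
      rw [← h8, h7]
      apply tsum_congr
      rintro ⟨k, hk⟩
      exact (tsum_mul_right).symm
    have hs1 : Summable fun i => G i x := (hx x).of_norm
    have hs2 : Summable fun i => G (i + 1) x := (summable_nat_add_iff 1).mpr hs1
    have hs3 : Summable fun i => opE a φ (G i) x := by
      have := hs2.neg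
      refine this.congr ?_
      intro i
      rw [hGs]; simp
    have e1 : ∑' i, opE a φ (G i) x = - ∑' i, G (i + 1) x := by
      rw [← tsum_neg]
      apply tsum_congr
      intro i
      rw [hGs]; simp
    rw [hE, e1]
    change f x = (∑' i, G i x) + - ∑' i, G (i + 1) x
    rw [hs1.tsum_eq_zero_add, hG0]
    ring

end neumann

section solve

lemma conv_comm (S : Set ℚ) (f g : S → ℂ) : conv S f g = conv S g f := by
  funext x
  unfold conv
  let e : {p : S × S // (p.1 : ℚ) + (p.2 : ℚ) = (x : ℚ)} ≃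
      {p : S × S // (p.1 : ℚ) + (p.2 : ℚ) = (x : ℚ)} :=
    (Equiv.prodComm S S).subtypeEquiv (by
      rintro ⟨a, b⟩
      simp only [Equiv.prodComm_apply, Prod.swap_prod_mk, add_comm])
  rw [← e.tsum_eq]
  apply tsum_congr
  rintro ⟨⟨a, b⟩, h⟩
  exact mul_comm _ _

lemma dist_sum (H : ℕ → ℝ) (h0 : ∀ i, 0 ≤ H i) (hH : Summable H) (κ : ℕ) :
    Summable (fun n => H (Nat.dist n κ)) ∧ ∑' n, H (Nat.dist n κ) ≤ 2 * ∑' i, H i := by
  have e1 : ∀ i, Nat.dist (i + κ) κ = i := by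
    intro i; simp [Nat.dist]
  have hs : Summable (fun n => H (Nat.dist n κ)) := by
    rw [← summable_nat_add_iff κ]
    simpa only [e1] using hH
  refine ⟨hs, ?_⟩
  rw [← hs.sum_add_tsum_nat_add κ]
  simp only [e1]
  have h2 : ∑ n ∈ Finset.range κ, H (Nat.dist n κ) ≤ ∑' i, H i := by
    rw [← Finset.sum_range_reflect]
    have h3 : ∑ j ∈ Finset.range κ, H (Nat.dist (κ - 1 - j) κ) =
        ∑ j ∈ Finset.range κ, H (j + 1) := by
      apply Finset.sum_congr rfl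
      intro j hj
      have := Finset.mem_range.mp hj
      congr 1
      simp only [Nat.dist]
      omega
    rw [h3]
    have h4 : Summable fun j => H (j + 1) := (summable_nat_add_iff 1).mpr hH
    calc ∑ j ∈ Finset.range κ, H (j + 1) ≤ ∑' j, H (j + 1) :=
          h4.sum_le_tsum _ (fun i _ => h0 _)
      _ ≤ ∑' i, H i := by
          rw [hH.tsum_eq_zero_add]
          linarith [h0 0]
  linarith

/-- the kernel function used for the off diagonal terms -/
def HH (i : ℕ) : ℝ := if i < 3 then 0 else 192 * (1 / 8) ^ i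

lemma HH_nonneg (i : ℕ) : 0 ≤ HH i := by
  unfold HH; split_ifs <;> positivity

lemma HH_sum : HasSum HH (3 / 7) := by
  rw [← hasSum_nat_add_iff' 3]
  have h1 : (fun i => HH (i + 3)) = fun i => (3 / 8 : ℝ) * (1 / 8) ^ i := by
    funext i
    unfold HH
    rw [if_neg (by omega), pow_add]
    ring
  have h2 : ∑ i ∈ Finset.range 3, HH i = 0 := by
    apply Finset.sum_eq_zero
    intro i hi
    unfold HH
    rw [if_pos (Finset.mem_range.mp hi)]
  rw [h1, h2]
  have h3 := (hasSum_geometric_of_lt_one (r := (1 / 8 : ℝ)) (by norm_num) (by norm_num)).mul_left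
    (3 / 8 : ℝ)
  have h4 : (3 / 7 : ℝ) - 0 = 3 / 8 * (1 - 1 / 8)⁻¹ := by norm_num
  rw [h4]
  exact h3

/-- Roots of unity. -/
def zt : ℂ := Complex.exp (2 * Real.pi * Complex.I / (3 : ℕ))

lemma zt_prim : IsPrimitiveRoot zt 3 := Complex.isPrimitiveRoot_exp 3 (by norm_num)

lemma zt_norm : ‖zt‖ = 1 := zt_prim.norm'_eq_one (by norm_num)

lemma zt_sum (m : ℕ) : ∑ j : Fin 3, zt ^ ((j : ℕ) * m) = if 3 ∣ m then 3 else 0 := by
  have e : ∀ j : Fin 3, zt ^ ((j : ℕ) * m) = (zt ^ m) ^ (j : ℕ) := by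
    intro j; rw [← pow_mul]; ring_nf
  simp only [e]
  split_ifs with h
  · have : zt ^ m = 1 := (zt_prim.pow_eq_one_iff_dvd m).mpr h
    simp [this]
  · have h1 : zt ^ m ≠ 1 := fun h' => h ((zt_prim.pow_eq_one_iff_dvd m).mp h')
    have h2 : (zt ^ m) ^ 3 = 1 := by rw [← pow_mul, mul_comm, pow_mul, zt_prim.pow_eq_one, one_pow]
    have h3 : (zt ^ m - 1) * (1 + zt ^ m + (zt ^ m) ^ 2) = 0 := by
      linear_combination h2
    have h4 : 1 + zt ^ m + (zt ^ m) ^ 2 = 0 := by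
      rcases mul_eq_zero.mp h3 with h | h
      · exact absurd (sub_eq_zero.mp h) h1
      · exact h
    rw [Fin.sum_univ_three]
    simpa using h4

/-- `t - ρ (κ t) + ρ n` -/
def shift (ρ : ℕ → Ioi (0 : ℚ)) (κ : Ioi (0 : ℚ) → ℕ) (hκ : ∀ t, (ρ (κ t) : ℚ) < t)
    (t : Ioi (0 : ℚ)) (n : ℕ) : Ioi (0 : ℚ) :=
  ⟨(t : ℚ) - ρ (κ t) + ρ n, by
    have h1 := hκ t
    have h2 : (0 : ℚ) < ρ n := (ρ n).2
    simp only [mem_Ioi]
    linarith⟩

def down (ρ : ℕ → Ioi (0 : ℚ)) (κ : Ioi (0 : ℚ) → ℕ) (hκ : ∀ t, (ρ (κ t) : ℚ) < t)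
    (t : Ioi (0 : ℚ)) : Ioi (0 : ℚ) :=
  ⟨(t : ℚ) - ρ (κ t), by
    have h1 := hκ t
    simp only [mem_Ioi]
    linarith⟩

/-- all coefficients -/
def aA (κ : Ioi (0 : ℚ) → ℕ) (t : Ioi (0 : ℚ)) (n : ℕ) : ℂ :=
  if 3 ∣ n + 2 * κ t then (1 / 8) ^ n * 8 ^ (κ t) else 0

/-- the off-diagonal coefficients -/
def aO (κ : Ioi (0 : ℚ) → ℕ) (t : Ioi (0 : ℚ)) (n : ℕ) : ℂ :=
  if n = κ t then 0 else aA κ t n

lemma solve (ω : ℚ → ℝ) (hω : ∀ t : Ioi (0 : ℚ), 0 < ω t)
    (hsub : ∀ s t u : Ioi (0 : ℚ), (s : ℚ) + t = u → ω u ≤ ω s * ω t)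
    (ρ : ℕ → Ioi (0 : ℚ)) (κ : Ioi (0 : ℚ) → ℕ) (hκ : ∀ t, (ρ (κ t) : ℚ) < t)
    (h2 : ∀ t, ω (down ρ κ hκ t) ≤ 2 * ω t)
    (h3 : ∀ t n, κ t < n →
      ω (shift ρ κ hκ t n) * 64 ^ (κ (shift ρ κ hκ t n)) ≤ 2 * (64 * (ω t * 64 ^ (κ t))))
    (h4 : ∀ t n, n < κ t →
      ω (shift ρ κ hκ t n) * 64 ^ (κ (shift ρ κ hκ t n)) ≤ 64 ^ (n + 1) * ω t)
    (C : ℝ) (h5 : ∀ n, ω (ρ n) ≤ C) :
    ∃ b : Fin 3 → Ioi (0 : ℚ) → ℂ, (∀ j, b j ∈ ellOne (Ioi 0) ω) ∧
      ∀ f : Ioi (0 : ℚ) → ℂ, (Summable fun t => ‖f t‖ * (ω t * 64 ^ (κ t))) →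
      ∃ c : Fin 3 → Ioi (0 : ℚ) → ℂ, (∀ j, c j ∈ ellOne (Ioi 0) ω) ∧
        (∀ j, ∑' t : Ioi (0 : ℚ), ‖c j t‖ * ω t ≤ 14 * ∑' t : Ioi (0 : ℚ), ‖f t‖ * (ω t * 64 ^ (κ t))) ∧
        f = ∑ j, conv (Ioi 0) (b j) (c j) := by
  set w : Ioi (0 : ℚ) → ℝ := fun t => ω t * 64 ^ (κ t) with hw
  have hwpos : ∀ t, 0 < w t := fun t => mul_pos (hω t) (by positivity)
  set φ := shift ρ κ hκ with hφ
  -- bound for the off diagonal terms
  have hbd : ∀ t n, ‖aO κ t n‖ * w (φ t n) ≤ HH (Nat.dist n (κ t)) * w t := by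
    intro t n
    have hr0 : 0 ≤ HH (Nat.dist n (κ t)) * w t := mul_nonneg (HH_nonneg _) (hwpos t).le
    unfold aO aA
    split_ifs with e1 e2
    · simpa using hr0
    · have hn : ‖((1 / 8 : ℂ)) ^ n * 8 ^ (κ t)‖ = (1 / 8 : ℝ) ^ n * 8 ^ (κ t) := by
        rw [norm_mul, norm_pow, norm_pow]
        norm_num
      rw [hn]
      rcases lt_or_gt_of_ne e1 with hlt | hgt
      · -- n < κ t
        obtain ⟨i, hi⟩ : ∃ i, κ t = n + i := ⟨κ t - n, by omega⟩
        have hi3 : 3 ≤ i := by omega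
        have hd : Nat.dist n (κ t) = i := by rw [hi]; simp [Nat.dist]
        have h6 := h4 t n hlt
        unfold HH
        rw [hd, if_neg (by omega)]
        have h7 : w (φ t n) ≤ 64 ^ (n + 1) * ω t := h6
        calc (1 / 8 : ℝ) ^ n * 8 ^ (κ t) * w (φ t n)
            ≤ (1 / 8 : ℝ) ^ n * 8 ^ (κ t) * (64 ^ (n + 1) * ω t) := by gcongr
          _ = (64 * (1 / 8) ^ i) * (ω t * 64 ^ (κ t)) := by
              rw [hi]
              have e8 : (8 : ℝ) ^ (n + i) = 8 ^ n * 8 ^ i := pow_add _ _ _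
              have e64 : (64 : ℝ) ^ (n + i) = 64 ^ n * (8 ^ i * 8 ^ i) := by
                rw [pow_add, ← mul_pow]; norm_num
              have e18 : (1 / 8 : ℝ) ^ i * 8 ^ i = 1 := by rw [← mul_pow]; norm_num
              have e18n : (1 / 8 : ℝ) ^ n * 8 ^ n = 1 := by rw [← mul_pow]; norm_num
              rw [e8, e64, pow_succ]
              linear_combination (8 ^ i * 64 ^ n * 64 * ω t) * e18n -
                (8 ^ i * 64 ^ n * 64 * ω t) * e18
          _ ≤ (192 * (1 / 8) ^ i) * (ω t * 64 ^ (κ t)) := by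
              have : 0 < ω t * 64 ^ (κ t) := hwpos t
              gcongr
              norm_num
      · obtain ⟨i, hi⟩ : ∃ i, n = κ t + i := ⟨n - κ t, by omega⟩
        have hi3 : 3 ≤ i := by omega
        have hd : Nat.dist n (κ t) = i := by rw [hi]; simp [Nat.dist]
        have h6 := h3 t n hgt
        unfold HH
        rw [hd, if_neg (by omega)]
        have h7 : w (φ t n) ≤ 2 * (64 * (ω t * 64 ^ (κ t))) := h6
        calc (1 / 8 : ℝ) ^ n * 8 ^ (κ t) * w (φ t n)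
            ≤ (1 / 8 : ℝ) ^ n * 8 ^ (κ t) * (2 * (64 * (ω t * 64 ^ (κ t)))) := by gcongr
          _ = (128 * (1 / 8) ^ i) * (ω t * 64 ^ (κ t)) := by
              rw [hi, pow_add]
              have e18n : (1 / 8 : ℝ) ^ (κ t) * 8 ^ (κ t) = 1 := by rw [← mul_pow]; norm_num
              linear_combination (128 * (1 / 8) ^ i * (ω t * 64 ^ (κ t))) * e18n
          _ ≤ (192 * (1 / 8) ^ i) * (ω t * 64 ^ (κ t)) := by
              have : 0 < ω t * 64 ^ (κ t) := hwpos t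
              gcongr
              norm_num
    · simpa using hr0
  have hsum : ∀ t, Summable fun n => ‖aO κ t n‖ * w (φ t n) := fun t =>
    Summable.of_nonneg_of_le (fun n => mul_nonneg (norm_nonneg _) (hwpos _).le) (hbd t)
      ((dist_sum HH HH_nonneg HH_sum.summable (κ t)).1.mul_right _)
  have hle : ∀ t, ∑' n, ‖aO κ t n‖ * w (φ t n) ≤ (6 / 7) * w t := by
    intro t
    obtain ⟨d1, d2⟩ := dist_sum HH HH_nonneg HH_sum.summable (κ t)
    rw [HH_sum.tsum_eq] at d2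
    calc ∑' n, ‖aO κ t n‖ * w (φ t n) ≤ ∑' n, HH (Nat.dist n (κ t)) * w t :=
          (hsum t).tsum_le_tsum (hbd t) (d1.mul_right _)
      _ = (∑' n, HH (Nat.dist n (κ t))) * w t := tsum_mul_right
      _ ≤ (6 / 7) * w t := by
          apply mul_le_mul_of_nonneg_right _ (hwpos t).le
          linarith
  -- the elements b
  let B : Fin 3 → ℕ → ℂ := fun j n => (1 / 8) ^ n * zt ^ ((j : ℕ) * n)
  have hBnorm : ∀ j n, ‖B j n‖ = (1 / 8 : ℝ) ^ n := by
    intro j n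
    simp only [B, norm_mul, norm_pow, zt_norm]
    norm_num
  have hB : ∀ j, Summable fun n => ‖B j n‖ * ω (ρ n) := by
    intro j
    refine Summable.of_nonneg_of_le (fun n => mul_nonneg (norm_nonneg _) (hω _).le)
      (fun n => ?_) ((summable_geometric_of_lt_one (r := (1 / 8 : ℝ)) (by norm_num)
        (by norm_num)).mul_right C)
    rw [hBnorm]
    exact mul_le_mul_of_nonneg_left (h5 n) (by positivity)
  refine ⟨fun j => push (B j) ρ, fun j => (push_mem (ω := fun t : Ioi (0 : ℚ) => ω t) hω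
    (B j) ρ (hB j)).1, ?_⟩
  intro f hf
  obtain ⟨g, hg, hgn, hfg⟩ := neumann (w := w) hwpos (aO κ) φ (c := 6 / 7) (by norm_num)
    (by norm_num) hsum hle hf
  let Cc : Fin 3 → Ioi (0 : ℚ) → ℂ := fun j t =>
    (1 / 3) * g t * zt ^ ((j : ℕ) * (2 * κ t)) * 8 ^ (κ t)
  have hCle : ∀ j t, ‖Cc j t‖ * ω (down ρ κ hκ t) ≤ 2 * (‖g t‖ * w t) := by
    intro j t
    have e1 : ‖Cc j t‖ = (1 / 3) * ‖g t‖ * 8 ^ (κ t) := by
      simp only [Cc, norm_mul, norm_pow, zt_norm]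
      norm_num
    have e2 : (8 : ℝ) ^ (κ t) ≤ 64 ^ (κ t) := by gcongr; norm_num
    rw [e1]
    calc (1 / 3) * ‖g t‖ * 8 ^ (κ t) * ω (down ρ κ hκ t)
        ≤ 1 * ‖g t‖ * 64 ^ (κ t) * (2 * ω t) := by
          have := h2 t
          have := (hω (down ρ κ hκ t)).le
          gcongr
          norm_num
      _ = _ := by simp only [hw]; ring
  have hC : ∀ j, Summable fun t => ‖Cc j t‖ * ω (down ρ κ hκ t) := fun j =>
    Summable.of_nonneg_of_le (fun t => mul_nonneg (norm_nonneg _) (hω _).le) (hCle j)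
      (hg.mul_left 2)
  have hCm := fun j => push_mem (ω := fun t : Ioi (0 : ℚ) => ω t) hω (Cc j) (down ρ κ hκ) (hC j)
  refine ⟨fun j => push (Cc j) (down ρ κ hκ), fun j => (hCm j).1, fun j => ?_, ?_⟩
  · calc _ ≤ ∑' t, ‖Cc j t‖ * ω (down ρ κ hκ t) := (hCm j).2
      _ ≤ ∑' t, 2 * (‖g t‖ * w t) := (hC j).tsum_le_tsum (hCle j) (hg.mul_left 2)
      _ = 2 * ∑' t, ‖g t‖ * w t := tsum_mul_left
      _ ≤ 2 * ((1 - 6 / 7)⁻¹ * ∑' t, ‖f t‖ * w t) := by linarith
      _ = _ := by norm_num; ring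
  · funext x
    rw [Finset.sum_apply]
    have e1 : ∀ j : Fin 3, conv (Ioi 0) (push (B j) ρ) (push (Cc j) (down ρ κ hκ)) x =
        ∑' k : {k : Ioi (0 : ℚ) × ℕ // (down ρ κ hκ k.1 : ℚ) + ρ k.2 = x},
          Cc j k.1.1 * B j k.1.2 := by
      intro j
      rw [conv_comm]
      exact conv_push hω hsub (Cc j) (down ρ κ hκ) (B j) ρ (hC j) (hB j) x
    rw [Finset.sum_congr rfl (fun j _ => e1 j)]
    have e2 : ∀ j : Fin 3, Summable fun k : {k : Ioi (0 : ℚ) × ℕ //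
        (down ρ κ hκ k.1 : ℚ) + ρ k.2 = x} => Cc j k.1.1 * B j k.1.2 := fun j =>
      conv_fam_summable hω hsub (Cc j) (down ρ κ hκ) (B j) ρ (hC j) (hB j) x
    rw [← Summable.tsum_finsetSum (fun j _ => e2 j)]
    -- rewrite the summand
    have e3 : ∀ k : {k : Ioi (0 : ℚ) × ℕ // (down ρ κ hκ k.1 : ℚ) + ρ k.2 = x},
        ∑ j : Fin 3, Cc j k.1.1 * B j k.1.2 = g k.1.1 * aA κ k.1.1 k.1.2 := by
      rintro ⟨⟨t, n⟩, hk⟩
      have e4 : ∀ j : Fin 3, Cc j t * B j n =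
          ((1 / 3) * g t * ((1 / 8) ^ n * 8 ^ (κ t))) * zt ^ ((j : ℕ) * (n + 2 * κ t)) := by
        intro j
        simp only [Cc, B]
        rw [mul_add (j : ℕ) n, pow_add]
        ring
      simp only [e4]
      rw [← Finset.mul_sum, zt_sum]
      unfold aA
      split_ifs
      · ring
      · ring
    rw [tsum_congr e3]
    -- reindex
    let e : {k : Ioi (0 : ℚ) × ℕ // (down ρ κ hκ k.1 : ℚ) + ρ k.2 = x} ≃
        {k : Ioi (0 : ℚ) × ℕ // φ k.1 k.2 = x} :=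
      Equiv.subtypeEquivRight (by
        rintro ⟨t, n⟩
        constructor
        · intro h
          exact Subtype.ext h
        · intro h
          exact congrArg Subtype.val h)
    have e5 : ∑' k : {k : Ioi (0 : ℚ) × ℕ // (down ρ κ hκ k.1 : ℚ) + ρ k.2 = x},
        g k.1.1 * aA κ k.1.1 k.1.2 =
        ∑' k : {k : Ioi (0 : ℚ) × ℕ // φ k.1 k.2 = x}, g k.1.1 * aA κ k.1.1 k.1.2 :=
      e.tsum_eq (fun k : {k : Ioi (0 : ℚ) × ℕ // φ k.1 k.2 = x} => g k.1.1 * aA κ k.1.1 k.1.2)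
    rw [e5, hfg x]
    -- split the diagonal
    have hdiag : ∀ t, φ t (κ t) = t := by
      intro t
      apply Subtype.ext
      simp [hφ, shift]
    let k0 : {k : Ioi (0 : ℚ) × ℕ // φ k.1 k.2 = x} := ⟨(x, κ x), hdiag x⟩
    have e6 : ∀ k : {k : Ioi (0 : ℚ) × ℕ // φ k.1 k.2 = x},
        g k.1.1 * aA κ k.1.1 k.1.2 = (if k = k0 then g x else 0) +
          g k.1.1 * aO κ k.1.1 k.1.2 := by
      rintro ⟨⟨t, n⟩, hk⟩
      by_cases hn : n = κ t
      · subst hn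
        have htx : t = x := (hdiag t).symm.trans hk
        subst htx
        have : (⟨(t, κ t), hk⟩ : {k : Ioi (0 : ℚ) × ℕ // φ k.1 k.2 = t}) = k0 := rfl
        rw [if_pos this]
        have h3 : 3 ∣ κ t + 2 * κ t := ⟨κ t, by ring⟩
        have e7 : aA κ t (κ t) = 1 := by
          unfold aA
          rw [if_pos h3, ← mul_pow]
          norm_num
        have e8 : aO κ t (κ t) = 0 := by
          unfold aO
          rw [if_pos rfl]
        simp only [e7, e8]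
        ring
      · have : (⟨(t, n), hk⟩ : {k : Ioi (0 : ℚ) × ℕ // φ k.1 k.2 = x}) ≠ k0 := by
          intro h
          have h' := congrArg Subtype.val h
          simp only [k0, Prod.mk.injEq] at h'
          exact hn (by rw [h'.2, h'.1])
        rw [if_neg this]
        unfold aO
        simp only
        rw [if_neg hn]
        ring
    rw [tsum_congr e6]
    have s1 : Summable fun k : {k : Ioi (0 : ℚ) × ℕ // φ k.1 k.2 = x} =>
        (if k = k0 then g x else 0) := (hasSum_ite_eq k0 (g x)).summable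
    have s2 : Summable fun k : {k : Ioi (0 : ℚ) × ℕ // φ k.1 k.2 = x} =>
        g k.1.1 * aO κ k.1.1 k.1.2 := by
      obtain ⟨q1, _⟩ := fam_summable hwpos (aO κ) φ (c := 6 / 7) hsum hle hg
      exact (fiber_summable (ω := w) hwpos (fun k : Ioi (0 : ℚ) × ℕ => g k.1 * aO κ k.1 k.2)
        (fun k => φ k.1 k.2) q1 x).of_norm
    rw [s1.tsum_add s2, tsum_ite_eq]
    rfl

end solve

section select

lemma uniform_small (ω : ℚ → ℝ) (hω : ∀ t : Ioi (0 : ℚ), 0 < ω t)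
    (F : ℕ → Ioi (0 : ℚ) → ℂ) (hF : ∀ i, F i ∈ ellOne (Ioi 0) ω)
    (hlim : Tendsto (fun i => ∑' t : Ioi (0 : ℚ), ‖F i t‖ * ω t) atTop (𝓝 0))
    {δ : ℝ} (hδ : 0 < δ) :
    ∃ K : Finset (Ioi (0 : ℚ)), ∀ i, ∑' t : Ioi (0 : ℚ), (if t ∈ K then 0 else ‖F i t‖ * ω t) ≤ δ := by
  classical
  have hpos : ∀ i (t : Ioi (0 : ℚ)), 0 ≤ ‖F i t‖ * ω t :=
    fun i t => mul_nonneg (norm_nonneg _) (hω t).le
  have hsK : ∀ i (K : Finset (Ioi (0 : ℚ))),
      Summable fun t : Ioi (0 : ℚ) => (if t ∈ K then 0 else ‖F i t‖ * ω t) := by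
    intro i K
    refine Summable.of_nonneg_of_le ?_ ?_ (hF i)
    · intro t; split_ifs; exacts [le_rfl, hpos i t]
    · intro t; split_ifs; exacts [hpos i t, le_rfl]
  have hmono : ∀ i (K K' : Finset (Ioi (0 : ℚ))), K ⊆ K' →
      ∑' t : Ioi (0 : ℚ), (if t ∈ K' then 0 else ‖F i t‖ * ω t) ≤
      ∑' t : Ioi (0 : ℚ), (if t ∈ K then 0 else ‖F i t‖ * ω t) := by
    intro i K K' h
    apply (hsK i K').tsum_le_tsum _ (hsK i K)
    intro t
    by_cases h1 : t ∈ K
    · rw [if_pos h1, if_pos (h h1)]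
    · rw [if_neg h1]
      split_ifs
      exacts [hpos i t, le_rfl]
  have hone : ∀ i, ∃ K : Finset (Ioi (0 : ℚ)),
      ∑' t : Ioi (0 : ℚ), (if t ∈ K then 0 else ‖F i t‖ * ω t) ≤ δ := by
    intro i
    have h1 := (hF i).hasSum
    have h2 := (h1.eventually (Ioi_mem_nhds (show (∑' t : Ioi (0 : ℚ), ‖F i t‖ * ω t) - δ <
      ∑' t : Ioi (0 : ℚ), ‖F i t‖ * ω t by linarith))).exists
    obtain ⟨K, hK⟩ := h2
    refine ⟨K, ?_⟩
    have h3 : ∑' t : Ioi (0 : ℚ), ‖F i t‖ * ω t = (∑ t ∈ K, ‖F i t‖ * ω t) +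
        ∑' t : Ioi (0 : ℚ), (if t ∈ K then 0 else ‖F i t‖ * ω t) := by
      have h4 : ∀ t : Ioi (0 : ℚ), ‖F i t‖ * ω t = (if t ∈ K then ‖F i t‖ * ω t else 0) +
          (if t ∈ K then 0 else ‖F i t‖ * ω t) := by
        intro t; split_ifs <;> simp
      have h5 : Summable fun t : Ioi (0 : ℚ) => (if t ∈ K then ‖F i t‖ * ω t else 0) :=
        summable_of_ne_finset_zero (s := K) (fun t ht => if_neg ht)
      have h6 : ∑' t : Ioi (0 : ℚ), (if t ∈ K then ‖F i t‖ * ω t else 0) =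
          ∑ t ∈ K, ‖F i t‖ * ω t := by
        rw [tsum_eq_sum (s := K) (fun t ht => if_neg ht)]
        exact Finset.sum_congr rfl (fun t ht => if_pos ht)
      rw [← h6, ← h5.tsum_add (hsK i K)]
      exact tsum_congr h4
    have h7 : (∑' t : Ioi (0 : ℚ), ‖F i t‖ * ω t) - δ < ∑ t ∈ K, ‖F i t‖ * ω t := hK
    linarith
  obtain ⟨N, hN⟩ := eventually_atTop.mp (hlim.eventually (Iio_mem_nhds hδ))
  choose K hK using hone
  refine ⟨(Finset.range N).biUnion K, ?_⟩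
  intro i
  by_cases hi : i < N
  · exact (hmono i (K i) _ (Finset.subset_biUnion_of_mem K (Finset.mem_range.mpr hi))).trans (hK i)
  · have h1 := hmono i ∅ ((Finset.range N).biUnion K) (Finset.empty_subset _)
    have h2 : ∑' t : Ioi (0 : ℚ), (if t ∈ (∅ : Finset (Ioi (0 : ℚ))) then 0 else ‖F i t‖ * ω t) =
        ∑' t : Ioi (0 : ℚ), ‖F i t‖ * ω t := by simp
    rw [h2] at h1
    have h3 : ∑' t : Ioi (0 : ℚ), ‖F i t‖ * ω t < δ := hN i (by omega)
    exact h1.trans h3.le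

/-- The abstract form of the main result: `B k` are increasing sets of exponents and `ρ` a fast
decreasing sequence. -/
lemma main_of (ω : ℚ → ℝ) (hω : ∀ t : Ioi (0 : ℚ), 0 < ω t)
    (hsub : ∀ s t u : Ioi (0 : ℚ), (s : ℚ) + t = u → ω u ≤ ω s * ω t)
    (ρ : ℕ → Ioi (0 : ℚ)) (B : ℕ → Ioi (0 : ℚ) → Prop)
    (A1 : ∀ k, 2 * (ρ (k + 1) : ℚ) ≤ ρ k)
    (A2 : ∀ t : Ioi (0 : ℚ), ∃ k, 2 * (ρ k : ℚ) ≤ t ∧ B k t)
    (Bm : ∀ k t, B k t → B (k + 1) t)
    (A3 : ∀ k n (t t' : Ioi (0 : ℚ)), 2 * (ρ k : ℚ) ≤ t → B k t → k < n →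
      (t' : ℚ) = t - ρ k + ρ n → B (k + 1) t' ∧ ω t' ≤ 2 * ω t)
    (A3' : ∀ k (t t' : Ioi (0 : ℚ)), 2 * (ρ k : ℚ) ≤ t → B k t →
      (t' : ℚ) = t - ρ k → ω t' ≤ 2 * ω t)
    (A4 : ∀ k n (t t' : Ioi (0 : ℚ)), 2 * (ρ k : ℚ) ≤ t → B k t → n < k →
      (t' : ℚ) = t - ρ k + ρ n → B (k + 1) t' ∧ ω t' ≤ ω t ∧
        ∀ j, n + 1 ≤ j → j ≤ k → ¬ B j t' → ω t' * 64 ^ (j + 1) ≤ ω t)
    (C : ℝ) (h5 : ∀ n, ω (ρ n) ≤ C)
    (F : ℕ → Ioi (0 : ℚ) → ℂ) (hF : ∀ i, F i ∈ ellOne (Ioi 0) ω)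
    (hlim : Tendsto (fun i => ∑' t : Ioi (0 : ℚ), ‖F i t‖ * ω t) atTop (𝓝 0))
    (K : ℕ → Finset (Ioi (0 : ℚ)))
    (hK : ∀ k i, ∑' t : Ioi (0 : ℚ), (if t ∈ K k then 0 else ‖F i t‖ * ω t) ≤ (1 / 4096) ^ (k + 1))
    (hKB : ∀ k, ∀ t ∈ K k, 2 * (ρ k : ℚ) ≤ t ∧ B k t) :
    ∃ b : Fin 3 → Ioi (0 : ℚ) → ℂ, (∀ j, b j ∈ ellOne (Ioi 0) ω) ∧
      ∃ c : ℕ → Fin 3 → Ioi (0 : ℚ) → ℂ, (∀ i j, c i j ∈ ellOne (Ioi 0) ω) ∧
        (∀ j, Tendsto (fun i => ∑' t : Ioi (0 : ℚ), ‖c i j t‖ * ω t) atTop (𝓝 0)) ∧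
        ∀ i, F i = ∑ j, conv (Ioi 0) (b j) (c i j) := by
  classical
  let κ : Ioi (0 : ℚ) → ℕ := fun t => Nat.find (A2 t)
  have κ1 : ∀ t, 2 * (ρ (κ t) : ℚ) ≤ t := fun t => (Nat.find_spec (A2 t)).1
  have κ2 : ∀ t, B (κ t) t := fun t => (Nat.find_spec (A2 t)).2
  have κle : ∀ (t : Ioi (0 : ℚ)) k, 2 * (ρ k : ℚ) ≤ t → B k t → κ t ≤ k := fun t k h1 h2 =>
    Nat.find_min' (A2 t) ⟨h1, h2⟩
  have ρpos : ∀ n, (0 : ℚ) < ρ n := fun n => (ρ n).2
  have ρanti : ∀ k n, k ≤ n → (ρ n : ℚ) ≤ ρ k := by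
    intro k n h
    induction n, h using Nat.le_induction with
    | base => exact le_rfl
    | succ n _ ih => linarith [A1 n, ρpos (n + 1)]
  have ρlt : ∀ k n, k < n → 2 * (ρ n : ℚ) ≤ ρ k := by
    intro k n h
    have h1 := ρanti (k + 1) n h
    linarith [A1 k]
  have Bmono : ∀ k n t, k ≤ n → B k t → B n t := by
    intro k n t h hb
    induction n, h using Nat.le_induction with
    | base => exact hb
    | succ n _ ih => exact Bm n t ih
  have hκ : ∀ t, (ρ (κ t) : ℚ) < t := by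
    intro t
    linarith [κ1 t, ρpos (κ t)]
  have hN0 : ∀ i, 0 ≤ ∑' t : Ioi (0 : ℚ), ‖F i t‖ * ω t :=
    fun i => tsum_nonneg fun t => mul_nonneg (norm_nonneg _) (hω t).le
  obtain ⟨b, hb, hsol⟩ := solve ω hω hsub ρ κ hκ
    (fun t => A3' (κ t) t _ (κ1 t) (κ2 t) rfl)
    (fun t n hn => by
      obtain ⟨h1, h2⟩ := A3 (κ t) n t (shift ρ κ hκ t n) (κ1 t) (κ2 t) hn rfl
      have h3 : κ (shift ρ κ hκ t n) ≤ κ t + 1 := by
        apply κle _ _ _ h1
        have : ((shift ρ κ hκ t n : Ioi (0 : ℚ)) : ℚ) = t - ρ (κ t) + ρ n := rfl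
        rw [this]
        linarith [κ1 t, A1 (κ t), ρpos n]
      have h4 : (64 : ℝ) ^ (κ (shift ρ κ hκ t n)) ≤ 64 ^ (κ t + 1) :=
        pow_le_pow_right₀ (by norm_num) h3
      have h5 := hω (shift ρ κ hκ t n)
      have h6 := hω t
      have h7 : 0 ≤ 2 * ω t := by positivity
      calc ω (shift ρ κ hκ t n) * 64 ^ (κ (shift ρ κ hκ t n)) ≤ (2 * ω t) * 64 ^ (κ t + 1) := by
            gcongr
        _ = _ := by ring)
    (fun t n hn => by
      obtain ⟨h1, h2, h3⟩ := A4 (κ t) n t (shift ρ κ hκ t n) (κ1 t) (κ2 t) hn rfl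
      have hval : ((shift ρ κ hκ t n : Ioi (0 : ℚ)) : ℚ) = t - ρ (κ t) + ρ n := rfl
      have hge : (ρ n : ℚ) ≤ (shift ρ κ hκ t n : Ioi (0 : ℚ)) := by
        rw [hval]; linarith [κ1 t, ρpos (κ t)]
      have hpos := hω (shift ρ κ hκ t n)
      have hpost := hω t
      by_cases hB : B (n + 1) (shift ρ κ hκ t n)
      · have h4 : κ (shift ρ κ hκ t n) ≤ n + 1 := κle _ (n + 1) (by linarith [A1 n]) hB
        have h5 : (64 : ℝ) ^ (κ (shift ρ κ hκ t n)) ≤ 64 ^ (n + 1) :=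
          pow_le_pow_right₀ (by norm_num) h4
        calc ω (shift ρ κ hκ t n) * 64 ^ (κ (shift ρ κ hκ t n)) ≤ ω t * 64 ^ (n + 1) := by
              gcongr
          _ = _ := by ring
      · -- the index is j + 1 with j ≥ n + 1
        have hgt : n + 1 < κ (shift ρ κ hκ t n) := by
          by_contra hcon
          exact hB (Bmono _ _ _ (not_lt.mp hcon) (κ2 _))
        obtain ⟨j, hj⟩ : ∃ j, κ (shift ρ κ hκ t n) = j + 1 :=
          ⟨κ (shift ρ κ hκ t n) - 1, by omega⟩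
        have hle : κ (shift ρ κ hκ t n) ≤ κ t + 1 := by
          apply κle _ _ _ h1
          have := ρlt n (κ t + 1) (by omega)
          linarith
        have hnB : ¬ B j (shift ρ κ hκ t n) := by
          intro hcon
          have h6 := κle (shift ρ κ hκ t n) j (by
            have := ρlt n j (by omega)
            linarith) hcon
          omega
        have h7 := h3 j (by omega) (by omega) hnB
        rw [hj]
        calc ω (shift ρ κ hκ t n) * 64 ^ (j + 1) ≤ ω t := h7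
          _ = 1 * ω t := by ring
          _ ≤ 64 ^ (n + 1) * ω t := by
              apply mul_le_mul_of_nonneg_right _ hpost.le
              exact one_le_pow₀ (by norm_num)) C h5
  -- the weighted norms of F i
  obtain ⟨M, hM1, hM⟩ : ∃ M : ℝ, 1 ≤ M ∧ ∀ i, ∑' t : Ioi (0 : ℚ), ‖F i t‖ * ω t ≤ M := by
    obtain ⟨M, hM⟩ := hlim.bddAbove_range
    refine ⟨max M 1, le_max_right _ _, fun i => (hM ⟨i, rfl⟩).trans (le_max_left _ _)⟩
  let bb : ℕ → ℕ → ℝ := fun i k =>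
    min (M * (1 / 64) ^ k) (64 ^ k * ∑' t : Ioi (0 : ℚ), ‖F i t‖ * ω t)
  have hgeo : Summable fun k : ℕ => M * (1 / 64 : ℝ) ^ k :=
    (summable_geometric_of_lt_one (by norm_num) (by norm_num)).mul_left M
  have hbb0 : ∀ i k, 0 ≤ bb i k := fun i k => le_min (by positivity)
    (mul_nonneg (by positivity) (hN0 i))
  have hbbs : ∀ i, Summable (bb i) := fun i =>
    Summable.of_nonneg_of_le (hbb0 i) (fun k => min_le_left _ _) hgeo
  have hbblim : Tendsto (fun i => ∑' k, bb i k) atTop (𝓝 0) := by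
    have h1 := tendsto_tsum_of_dominated_convergence (f := fun i k => bb i k) (g := fun _ => (0 : ℝ))
      (𝓕 := atTop) hgeo (fun k => ?_) (Eventually.of_forall fun i k => ?_)
    · simpa using h1
    · have h2 : Tendsto (fun i => (64 : ℝ) ^ k * ∑' t : Ioi (0 : ℚ), ‖F i t‖ * ω t) atTop (𝓝 0) := by
        simpa using hlim.const_mul ((64 : ℝ) ^ k)
      exact squeeze_zero (fun i => hbb0 i k) (fun i => min_le_right _ _) h2
    · rw [Real.norm_of_nonneg (hbb0 i k)]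
      exact min_le_left _ _
  have hw : ∀ i, (Summable fun t : Ioi (0 : ℚ) => ‖F i t‖ * (ω t * 64 ^ (κ t))) ∧
      ∑' t : Ioi (0 : ℚ), ‖F i t‖ * (ω t * 64 ^ (κ t)) ≤ ∑' k, bb i k := by
    intro i
    let u : ℕ × Ioi (0 : ℚ) → ℝ := fun p => if κ p.2 = p.1 then 64 ^ p.1 * (‖F i p.2‖ * ω p.2) else 0
    have hFi : Summable fun t : Ioi (0 : ℚ) => ‖F i t‖ * ω t := hF i
    have hu0 : ∀ p, 0 ≤ u p := by
      intro p
      simp only [u]
      split_ifs
      · exact mul_nonneg (by positivity) (mul_nonneg (norm_nonneg _) (hω _).le)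
      · exact le_rfl
    have hu1 : ∀ k, Summable fun t => u (k, t) := by
      intro k
      refine Summable.of_nonneg_of_le (fun t => hu0 (k, t)) ?_ (hFi.mul_left (64 ^ k))
      intro t
      simp only [u]
      split_ifs
      · exact le_rfl
      · exact mul_nonneg (by positivity) (mul_nonneg (norm_nonneg _) (hω _).le)
    have hu2 : ∀ k, ∑' t, u (k, t) ≤ bb i k := by
      intro k
      apply le_min
      · rcases k with _ | k
        · have h1 : ∑' t, u (0, t) ≤ ∑' t : Ioi (0 : ℚ), ‖F i t‖ * ω t := by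
            refine (hu1 0).tsum_le_tsum ?_ hFi
            intro t
            simp only [u, pow_zero, one_mul]
            split_ifs
            · exact le_rfl
            · exact mul_nonneg (norm_nonneg _) (hω _).le
          simpa using h1.trans (hM i)
        · have hs : Summable fun t : Ioi (0 : ℚ) =>
              (if t ∈ K k then 0 else ‖F i t‖ * ω t) := by
            refine Summable.of_nonneg_of_le ?_ ?_ hFi
            · intro t; split_ifs
              exacts [le_rfl, mul_nonneg (norm_nonneg _) (hω _).le]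
            · intro t; split_ifs
              exacts [mul_nonneg (norm_nonneg _) (hω _).le, le_rfl]
          have h1 : ∑' t, u (k + 1, t) ≤
              ∑' t : Ioi (0 : ℚ), 64 ^ (k + 1) * (if t ∈ K k then 0 else ‖F i t‖ * ω t) := by
            refine (hu1 (k + 1)).tsum_le_tsum ?_ (hs.mul_left _)
            intro t
            simp only [u]
            by_cases hκt : κ t = k + 1
            · rw [if_pos hκt]
              have : t ∉ K k := by
                intro hcon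
                obtain ⟨q1, q2⟩ := hKB k t hcon
                have := κle t k q1 q2
                omega
              rw [if_neg this]
            · rw [if_neg hκt]
              split_ifs
              · simp
              · exact mul_nonneg (by positivity) (mul_nonneg (norm_nonneg _) (hω _).le)
          rw [tsum_mul_left] at h1
          calc ∑' t, u (k + 1, t) ≤ _ := h1
            _ ≤ 64 ^ (k + 1) * (1 / 4096) ^ (k + 1) := by
                apply mul_le_mul_of_nonneg_left (hK k i) (by positivity)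
            _ = 1 * (1 / 64) ^ (k + 1) := by rw [← mul_pow]; norm_num
            _ ≤ M * (1 / 64) ^ (k + 1) := by gcongr
      · rw [← tsum_mul_left]
        refine (hu1 k).tsum_le_tsum ?_ (hFi.mul_left _)
        intro t
        simp only [u]
        split_ifs
        · exact le_rfl
        · exact mul_nonneg (by positivity) (mul_nonneg (norm_nonneg _) (hω _).le)
    have hu : Summable u := (summable_prod_of_nonneg hu0).mpr ⟨hu1,
      Summable.of_nonneg_of_le (fun k => tsum_nonneg fun t => hu0 (k, t)) hu2 (hbbs i)⟩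
    have hu' : Summable fun p : Ioi (0 : ℚ) × ℕ => u (p.2, p.1) :=
      hu.comp_injective (i := Prod.swap) Prod.swap_injective
    have hval : ∀ t, ∑' k, u (k, t) = ‖F i t‖ * (ω t * 64 ^ (κ t)) := by
      intro t
      rw [tsum_eq_single (κ t)]
      · simp only [u, if_true]
        ring
      · intro k hk
        simp only [u]
        rw [if_neg (Ne.symm hk)]
    have hs := hu'.prod
    have hs' : Summable fun t : Ioi (0 : ℚ) => ‖F i t‖ * (ω t * 64 ^ (κ t)) := by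
      refine hs.congr ?_
      intro t
      exact hval t
    refine ⟨hs', ?_⟩
    calc ∑' t : Ioi (0 : ℚ), ‖F i t‖ * (ω t * 64 ^ (κ t)) = ∑' t, ∑' k, u (k, t) :=
          tsum_congr fun t => (hval t).symm
      _ = ∑' p : Ioi (0 : ℚ) × ℕ, u (p.2, p.1) := (hu'.tsum_prod' fun t => hu'.prod_factor t).symm
      _ = ∑' p : ℕ × Ioi (0 : ℚ), u p := (Equiv.prodComm (Ioi (0 : ℚ)) ℕ).tsum_eq u
      _ = ∑' k, ∑' t, u (k, t) := hu.tsum_prod' hu1
      _ ≤ ∑' k, bb i k := hu.prod.tsum_le_tsum hu2 (hbbs i)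
  choose c hc1 hc2 hc3 using fun i => hsol (F i) (hw i).1
  refine ⟨b, hb, c, hc1, fun j => ?_, hc3⟩
  refine squeeze_zero (fun i => tsum_nonneg fun t => mul_nonneg (norm_nonneg _) (hω t).le)
    (fun i => (hc2 i j).trans (mul_le_mul_of_nonneg_left (hw i).2 (by norm_num))) ?_
  simpa using hbblim.const_mul 14

end select

section apps

lemma exists_low (K : Finset (Ioi (0 : ℚ))) : ∃ m : ℚ, 0 < m ∧ ∀ t ∈ K, m ≤ t := by
  classical
  induction K using Finset.induction_on with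
  | empty => exact ⟨1, one_pos, by simp⟩
  | insert a K ha ih =>
    obtain ⟨m, hm, h⟩ := ih
    refine ⟨min m a, lt_min hm a.2, ?_⟩
    intro t ht
    rcases Finset.mem_insert.mp ht with h1 | h1
    · rw [h1]; exact min_le_right _ _
    · exact (min_le_left _ _).trans (h t h1)

lemma exists_high (K : Finset (Ioi (0 : ℚ))) : ∃ M : ℚ, 1 ≤ M ∧ ∀ t ∈ K, (t : ℚ) ≤ M := by
  classical
  induction K using Finset.induction_on with
  | empty => exact ⟨1, le_rfl, by simp⟩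
  | insert a K ha ih =>
    obtain ⟨m, hm, h⟩ := ih
    refine ⟨max m a, le_max_of_le_left hm, ?_⟩
    intro t ht
    rcases Finset.mem_insert.mp ht with h1 | h1
    · rw [h1]; exact le_max_right _ _
    · exact (h t h1).trans (le_max_left _ _)

/-- recursion step -/
def stepL (M : ℕ → ℚ) (k : ℕ) (p : ℚ × ℚ) : ℚ :=
  max (max (p.2 + 1) (M (k + 1))) (1 + 5 * (k + 2) / p.1)

def seqRL (m M : ℕ → ℚ) : ℕ → ℚ × ℚ
  | 0 => (min (m 0 / 2) (1 / (4 * M 0)), M 0)
  | k + 1 => (min (min ((seqRL m M k).1 / 2) (m (k + 1) / 2))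
      (1 / (4 * stepL M k (seqRL m M k))), stepL M k (seqRL m M k))

lemma exists_seq (m M : ℕ → ℚ) (hm : ∀ k, 0 < m k) (hM : ∀ k, 1 ≤ M k) :
    ∃ r L : ℕ → ℚ, (∀ k, 0 < r k) ∧ (∀ k, 1 ≤ L k) ∧ (∀ k, 2 * r (k + 1) ≤ r k) ∧
      (∀ k, L k + 1 ≤ L (k + 1)) ∧ (∀ k, 4 * (r k * L k) ≤ 1) ∧
      (∀ k : ℕ, 5 * ((k : ℚ) + 2) ≤ (L (k + 1) - 1) * r k) ∧ (∀ k, 2 * r k ≤ m k) ∧
      (∀ k, M k ≤ L k) := by
  have hpos : ∀ k, 0 < (seqRL m M k).1 ∧ 1 ≤ (seqRL m M k).2 := by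
    intro k
    induction k with
    | zero =>
      have h1 := hm 0
      have h2 := hM 0
      have h3 : 0 < M 0 := by linarith
      refine ⟨lt_min (by positivity) (by positivity), h2⟩
    | succ k ih =>
      have h1 := hm (k + 1)
      have h2 : 1 ≤ stepL M k (seqRL m M k) :=
        (hM (k + 1)).trans ((le_max_right _ _).trans (le_max_left _ _))
      have h3 : 0 < stepL M k (seqRL m M k) := by linarith
      have h4 := ih.1
      refine ⟨?_, h2⟩
      show 0 < min (min ((seqRL m M k).1 / 2) (m (k + 1) / 2))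
        (1 / (4 * stepL M k (seqRL m M k)))
      exact lt_min (lt_min (by positivity) (by positivity)) (by positivity)
  refine ⟨fun k => (seqRL m M k).1, fun k => (seqRL m M k).2, fun k => (hpos k).1,
    fun k => (hpos k).2, ?_, ?_, ?_, ?_, ?_, ?_⟩
  · intro k
    have h : (seqRL m M (k + 1)).1 ≤ (seqRL m M k).1 / 2 :=
      (min_le_left _ _).trans (min_le_left _ _)
    simp only
    linarith
  · intro k
    exact (le_max_left _ _).trans (le_max_left _ _)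
  · intro k
    have key : (seqRL m M k).1 ≤ 1 / (4 * (seqRL m M k).2) := by
      cases k with
      | zero => exact min_le_right _ _
      | succ k => exact min_le_right _ _
    have h2 : 0 < (seqRL m M k).2 := lt_of_lt_of_le one_pos (hpos k).2
    rw [le_div_iff₀ (by positivity)] at key
    simp only
    linarith
  · intro k
    have h1 : 1 + 5 * ((k : ℚ) + 2) / (seqRL m M k).1 ≤ (seqRL m M (k + 1)).2 :=
      le_max_right _ _
    have h2 := (hpos k).1
    have h3 : 5 * ((k : ℚ) + 2) / (seqRL m M k).1 ≤ (seqRL m M (k + 1)).2 - 1 := by linarith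
    rw [div_le_iff₀ h2] at h3
    exact h3
  · intro k
    have key : (seqRL m M k).1 ≤ m k / 2 := by
      cases k with
      | zero => exact min_le_left _ _
      | succ k => exact (min_le_left _ _).trans (min_le_right _ _)
    simp only
    linarith
  · intro k
    cases k with
    | zero => exact le_rfl
    | succ k => exact (le_max_right _ _).trans (le_max_left _ _)

/-- the conclusion, for a weight -/
def Good (S : Set ℚ) (ω : ℚ → ℝ) : Prop :=
  ∀ F : ℕ → S → ℂ, (∀ i, F i ∈ ellOne S ω) →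
    Tendsto (fun i => ∑' t : S, ‖F i t‖ * ω t) atTop (𝓝 0) →
    ∃ b : Fin 3 → S → ℂ, (∀ j, b j ∈ ellOne S ω) ∧
      ∃ c : ℕ → Fin 3 → S → ℂ, (∀ i j, c i j ∈ ellOne S ω) ∧
        (∀ j, Tendsto (fun i => ∑' t : S, ‖c i j t‖ * ω t) atTop (𝓝 0)) ∧
        ∀ i, F i = ∑ j, conv S (b j) (c i j)

/-- facts on the sequences -/
lemma r_small (r : ℕ → ℚ) (hr : ∀ k, 0 < r k) (h2 : ∀ k, 2 * r (k + 1) ≤ r k) (k0 : ℕ) (t : ℚ)
    (ht : 0 < t) : ∃ k, k0 ≤ k ∧ 2 * r k ≤ t := by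
  have h3 : ∀ k, r k ≤ r 0 * (1 / 2) ^ k := by
    intro k
    induction k with
    | zero => simp
    | succ k ih =>
      have := h2 k
      rw [pow_succ]
      linarith
  have h4 : 0 < r 0 := hr 0
  obtain ⟨n, hn⟩ := exists_pow_lt_of_lt_one (show 0 < t / (2 * r 0) by positivity)
    (show (1 / 2 : ℚ) < 1 by norm_num)
  refine ⟨max k0 n, le_max_left _ _, ?_⟩
  have h5 : (1 / 2 : ℚ) ^ (max k0 n) ≤ (1 / 2) ^ n :=
    pow_le_pow_of_le_one (by norm_num) (by norm_num) (le_max_right _ _)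
  have h6 : r 0 * (1 / 2) ^ (max k0 n) ≤ r 0 * (t / (2 * r 0)) :=
    mul_le_mul_of_nonneg_left (h5.trans hn.le) h4.le
  have h7 : r 0 * (t / (2 * r 0)) = t / 2 := by field_simp
  have h8 := h3 (max k0 n)
  linarith

lemma good_one : Good (Ioi 0) (fun _ => 1) := by
  intro F hF hlim
  have hω : ∀ t : Ioi (0 : ℚ), 0 < (fun _ : ℚ => (1 : ℝ)) t := fun _ => one_pos
  choose K hK using fun k : ℕ => uniform_small (fun _ => 1) hω F hF hlim
    (δ := (1 / 4096) ^ (k + 1)) (by positivity)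
  choose m hm1 hm2 using fun k => exists_low (K k)
  obtain ⟨r, L, hr, _, h2, _, _, _, h7, _⟩ := exists_seq m (fun _ => 1) hm1 (fun _ => le_rfl)
  exact main_of (fun _ => 1) hω (fun _ _ _ _ => by norm_num) (fun k => ⟨r k, hr k⟩)
    (fun _ _ => True) h2
    (fun t => by
      obtain ⟨k, _, hk⟩ := r_small r hr h2 0 t t.2
      exact ⟨k, hk, trivial⟩)
    (fun _ _ _ => trivial) (fun _ _ _ _ _ _ _ _ => ⟨trivial, by norm_num⟩)
    (fun _ _ _ _ _ _ => by norm_num)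
    (fun _ _ _ _ _ _ _ _ => ⟨trivial, le_rfl, fun _ _ _ h => absurd trivial h⟩)
    1 (fun _ => le_rfl) F hF hlim K hK
    (fun k t ht => ⟨(h7 k).trans (hm2 k t ht), trivial⟩)

lemma exp_half : Real.exp (1 / 2) ≤ 2 := by
  rw [← Real.le_log_iff_exp_le (by norm_num)]
  have := Real.log_two_gt_d9
  linarith

lemma exp_five : 64 ≤ Real.exp 5 := by
  have h1 := Real.exp_one_gt_d9
  have h2 : Real.exp 5 = Real.exp 1 ^ 5 := by rw [← Real.exp_nat_mul]; norm_num
  rw [h2]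
  calc (64 : ℝ) ≤ 2.7 ^ 5 := by norm_num
    _ ≤ Real.exp 1 ^ 5 := by gcongr; linarith

lemma good_exp : Good (Ioi 0) (fun t => Real.exp (-(t : ℝ) ^ 2)) := by
  intro F hF hlim
  set ω : ℚ → ℝ := fun t => Real.exp (-(t : ℝ) ^ 2) with hωdef
  have hω : ∀ t : Ioi (0 : ℚ), 0 < ω t := fun _ => Real.exp_pos _
  have hsub : ∀ s t u : Ioi (0 : ℚ), (s : ℚ) + t = u → ω u ≤ ω s * ω t := by
    intro s t u h
    simp only [hωdef]
    rw [← Real.exp_add]
    apply Real.exp_le_exp.mpr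
    have hs : (0 : ℝ) < ((s : ℚ) : ℝ) := by exact_mod_cast s.2
    have ht : (0 : ℝ) < ((t : ℚ) : ℝ) := by exact_mod_cast t.2
    have hu : ((u : ℚ) : ℝ) = ((s : ℚ) : ℝ) + ((t : ℚ) : ℝ) := by exact_mod_cast h.symm
    rw [hu]
    nlinarith
  choose K hK using fun k : ℕ => uniform_small ω hω F hF hlim
    (δ := (1 / 4096) ^ (k + 1)) (by positivity)
  choose m hm1 hm2 using fun k => exists_low (K k)
  choose M hM1 hM2 using fun k => exists_high (K k)
  obtain ⟨r, L, hr, hL1, h2, hLs, hrL, hdec, h7, h8⟩ := exists_seq m M hm1 hM1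
  have Lmono : ∀ k n, k ≤ n → L k ≤ L n := by
    intro k n h
    induction n, h using Nat.le_induction with
    | base => exact le_rfl
    | succ n _ ih => linarith [hLs n]
  have ranti : ∀ k n, k ≤ n → r n ≤ r k := by
    intro k n h
    induction n, h using Nat.le_induction with
    | base => exact le_rfl
    | succ n _ ih => linarith [h2 n, hr (n + 1)]
  have rsmall : ∀ k, r k ≤ 1 := by
    intro k
    have h1 := hrL k
    have h3 := hL1 k
    nlinarith [hr k]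
  have Lbig : ∀ k : ℕ, (k : ℚ) ≤ L k := by
    intro k
    induction k with
    | zero => simpa using (zero_le_one.trans (hL1 0))
    | succ k ih => push_cast; linarith [hLs k]
  -- decreasing the exponent
  have dec : ∀ k (t t' : Ioi (0 : ℚ)), (t : ℚ) ≤ L k → (t' : ℚ) ≤ t → (t : ℚ) - r k ≤ t' →
      ω t' ≤ 2 * ω t := by
    intro k t t' h1 h3 h4
    have e : ω t' = ω t * Real.exp (((t : ℚ) : ℝ) ^ 2 - ((t' : ℚ) : ℝ) ^ 2) := by
      simp only [hωdef]
      rw [← Real.exp_add]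
      congr 1
      ring
    have h5 : (t : ℚ) ^ 2 - (t' : ℚ) ^ 2 ≤ 1 / 2 := by
      have ht : (0 : ℚ) < t := t.2
      have ht' : (0 : ℚ) < t' := t'.2
      have h6 : (t : ℚ) - t' ≤ r k := by linarith
      have h7 : (t : ℚ) + t' ≤ 2 * L k := by linarith
      have h9 : ((t : ℚ) - t') * (t + t') ≤ r k * (2 * L k) := by
        apply mul_le_mul h6 h7 (by linarith) (hr k).le
      nlinarith [hrL k]
    have h6 : ((t : ℚ) : ℝ) ^ 2 - ((t' : ℚ) : ℝ) ^ 2 ≤ 1 / 2 := by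
      have h10 : (((t : ℚ) ^ 2 - (t' : ℚ) ^ 2 : ℚ) : ℝ) ≤ ((1 / 2 : ℚ) : ℝ) := by
        exact_mod_cast h5
      push_cast at h10
      exact h10
    rw [e]
    have h9 : Real.exp (((t : ℚ) : ℝ) ^ 2 - ((t' : ℚ) : ℝ) ^ 2) ≤ 2 :=
      (Real.exp_le_exp.mpr h6).trans exp_half
    nlinarith [hω t]
  refine main_of ω hω hsub (fun k => ⟨r k, hr k⟩) (fun k t => (t : ℚ) ≤ L k) h2 ?_ ?_ ?_ ?_ ?_
    1 ?_ F hF hlim K hK (fun k t ht => ⟨(h7 k).trans (hm2 k t ht), (hM2 k t ht).trans (h8 k)⟩)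
  · intro t
    obtain ⟨k0, hk0⟩ := exists_nat_ge (t : ℚ)
    obtain ⟨k, hk, hk2⟩ := r_small r hr h2 k0 t t.2
    refine ⟨k, hk2, hk0.trans ?_⟩
    exact (Lbig k0).trans (Lmono _ _ hk)
  · intro k t ht
    exact ht.trans (Lmono _ _ (Nat.le_succ k))
  · intro k n t t' h1 h3 h4 h5
    simp only at h1 h3 h5 ⊢
    have h6 := ranti k n h4.le
    refine ⟨?_, dec k t t' h3 (by linarith) (by linarith [hr n])⟩
    linarith [hLs k]
  · intro k t t' h1 h3 h5
    simp only at h1 h3 h5 ⊢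
    exact dec k t t' h3 (by linarith [hr k]) (by linarith)
  · intro k n t t' h1 h3 h4 h5
    simp only at h1 h3 h5 ⊢
    have h6 : 2 * r k ≤ r n := (mul_le_mul_of_nonneg_left (ranti (n + 1) k h4) (by norm_num)).trans
      (h2 n)
    have ht : (0 : ℚ) < t := t.2
    have hrk := hr k
    have hlt : (t : ℚ) ≤ t' := by linarith
    refine ⟨by linarith [hLs k, rsmall n], ?_, ?_⟩
    · apply Real.exp_le_exp.mpr
      have h9 : (t : ℚ) ^ 2 ≤ (t' : ℚ) ^ 2 := by nlinarith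
      have h10 : ((t : ℚ) : ℝ) ^ 2 ≤ ((t' : ℚ) : ℝ) ^ 2 := by exact_mod_cast h9
      linarith
    · intro j hj1 hj2 hj3
      push Not at hj3
      obtain ⟨i, rfl⟩ : ∃ i, j = i + 1 := ⟨j - 1, by omega⟩
      have h9 : r i ≤ r n := ranti n i (by omega)
      have h10 := hdec i
      have h11 : 5 * ((i : ℚ) + 2) ≤ (t' : ℚ) ^ 2 - (t : ℚ) ^ 2 := by
        have h12 : (L (i + 1) - 1) * r i ≤ (t' + t : ℚ) * (r n - r k) := by
          have hL := hL1 (i + 1)
          have h13 : 2 * (L (i + 1) - 1) ≤ (t' + t : ℚ) := by linarith [rsmall n]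
          have h14 : r n / 2 ≤ r n - r k := by linarith
          have h15 : (2 * (L (i + 1) - 1)) * (r i / 2) ≤ (t' + t : ℚ) * (r n - r k) := by
            apply mul_le_mul h13 (by linarith) (by linarith [hr i]) (by linarith)
          linarith
        have h16 : (t' + t : ℚ) * (r n - r k) = (t' : ℚ) ^ 2 - (t : ℚ) ^ 2 := by
          rw [h5]; ring
        linarith
      have h12 : 5 * ((i : ℝ) + 2) ≤ ((t' : ℚ) : ℝ) ^ 2 - ((t : ℚ) : ℝ) ^ 2 := by
        exact_mod_cast h11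
      have e : ω t = ω t' * Real.exp (((t' : ℚ) : ℝ) ^ 2 - ((t : ℚ) : ℝ) ^ 2) := by
        simp only [hωdef]
        rw [← Real.exp_add]
        congr 1
        ring
      rw [e]
      apply mul_le_mul_of_nonneg_left _ (hω t').le
      calc (64 : ℝ) ^ (i + 1 + 1) ≤ Real.exp 5 ^ (i + 1 + 1) := by
            gcongr; exact exp_five
        _ = Real.exp (5 * ((i : ℝ) + 2)) := by
            rw [← Real.exp_nat_mul]; congr 1; push_cast; ring
        _ ≤ _ := Real.exp_le_exp.mpr h12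
  · intro n
    simp only [hωdef]
    rw [Real.exp_le_one_iff]
    have := sq_nonneg ((r n : ℚ) : ℝ)
    linarith

/-- restriction to `(0,1]` -/
def res (f : Ioi (0 : ℚ) → ℂ) (t : Ioc (0 : ℚ) 1) : ℂ := f ⟨t, t.2.1⟩

lemma conv_res (f g : Ioi (0 : ℚ) → ℂ) :
    conv (Ioc 0 1) (res f) (res g) = res (conv (Ioi 0) f g) := by
  funext x
  unfold res conv
  let e : {p : Ioc (0 : ℚ) 1 × Ioc (0 : ℚ) 1 // (p.1 : ℚ) + (p.2 : ℚ) = (x : ℚ)} ≃
      {p : Ioi (0 : ℚ) × Ioi (0 : ℚ) // (p.1 : ℚ) + (p.2 : ℚ) = (x : ℚ)} :=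
    { toFun := fun p => ⟨(⟨p.1.1, p.1.1.2.1⟩, ⟨p.1.2, p.1.2.2.1⟩), p.2⟩
      invFun := fun p => ⟨(⟨p.1.1, p.1.1.2, by
          have h1 := p.2
          have h2 : (0 : ℚ) < p.1.2 := p.1.2.2
          have h3 := x.2.2
          linarith⟩, ⟨p.1.2, p.1.2.2, by
          have h1 := p.2
          have h2 : (0 : ℚ) < p.1.1 := p.1.1.2
          have h3 := x.2.2
          linarith⟩), p.2⟩
      left_inv := fun p => rfl
      right_inv := fun p => rfl }
  exact e.tsum_eq (fun p : {p : Ioi (0 : ℚ) × Ioi (0 : ℚ) //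
    (p.1 : ℚ) + (p.2 : ℚ) = (x : ℚ)} => f p.1.1 * g p.1.2)

def ext (f : Ioc (0 : ℚ) 1 → ℂ) (t : Ioi (0 : ℚ)) : ℂ :=
  if h : (t : ℚ) ≤ 1 then f ⟨t, t.2, h⟩ else 0

lemma res_ext (f : Ioc (0 : ℚ) 1 → ℂ) : res (ext f) = f := by
  funext t
  unfold res ext
  rw [dif_pos t.2.2]

def inc (t : Ioc (0 : ℚ) 1) : Ioi (0 : ℚ) := ⟨t, t.2.1⟩

lemma inc_inj : Function.Injective inc := by
  intro s t h
  have h1 := congrArg (fun x : Ioi (0 : ℚ) => (x : ℚ)) h
  exact Subtype.ext h1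

lemma ext_norm (f : Ioc (0 : ℚ) 1 → ℂ) (hf : f ∈ ellOne (Ioc 0 1) (fun _ => 1)) :
    ext f ∈ ellOne (Ioi 0) (fun _ => 1) ∧
    ∑' t : Ioi (0 : ℚ), ‖ext f t‖ * 1 = ∑' t : Ioc (0 : ℚ) 1, ‖f t‖ * 1 := by
  have hsupp : Function.support (fun t : Ioi (0 : ℚ) => ‖ext f t‖ * 1) ⊆ Set.range inc := by
    intro t ht
    by_contra hcon
    apply ht
    have : ¬ (t : ℚ) ≤ 1 := fun h => hcon ⟨⟨t, t.2, h⟩, rfl⟩
    simp [ext, this]
  have hcomp : (fun t : Ioi (0 : ℚ) => ‖ext f t‖ * 1) ∘ inc = fun t => ‖f t‖ * 1 := by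
    funext t
    have : ext f (inc t) = f t := congrFun (res_ext f) t
    simp [this]
  constructor
  · have h1 : Summable ((fun t : Ioi (0 : ℚ) => ‖ext f t‖ * 1) ∘ inc) := by
      rw [hcomp]; exact hf
    exact (inc_inj.summable_iff (fun t ht => by
      by_contra hcon
      exact ht (hsupp hcon))).mp h1
  · rw [← hcomp]
    exact (inc_inj.tsum_eq hsupp).symm

lemma res_norm (f : Ioi (0 : ℚ) → ℂ) (hf : f ∈ ellOne (Ioi 0) (fun _ => 1)) :
    res f ∈ ellOne (Ioc 0 1) (fun _ => 1) ∧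
    ∑' t : Ioc (0 : ℚ) 1, ‖res f t‖ * 1 ≤ ∑' t : Ioi (0 : ℚ), ‖f t‖ * 1 := by
  have hf' : Summable (fun t : Ioi (0 : ℚ) => ‖f t‖ * 1) := hf
  have h1 : Summable (fun t : Ioc (0 : ℚ) 1 => ‖res f t‖ * 1) := hf'.comp_injective inc_inj
  refine ⟨h1, ?_⟩
  exact tsum_comp_le_tsum_of_inj hf' (fun t => by positivity) inc_inj

lemma good_trunc : Good (Ioc 0 1) (fun _ => 1) := by
  intro F hF hlim
  obtain ⟨b, hb, c, hc, hclim, hFc⟩ := good_one (fun i => ext (F i))
    (fun i => (ext_norm (F i) (hF i)).1) (by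
      simpa only [(ext_norm (F _) (hF _)).2] using hlim)
  refine ⟨fun j => res (b j), fun j => (res_norm _ (hb j)).1, fun i j => res (c i j),
    fun i j => (res_norm _ (hc i j)).1, fun j => ?_, fun i => ?_⟩
  · exact squeeze_zero (fun i => tsum_nonneg fun t => by positivity)
      (fun i => (res_norm _ (hc i j)).2) (hclim j)
  · simp only [conv_res]
    have h := hFc i
    have h2 : F i = res (ext (F i)) := (res_ext _).symm
    rw [h2, h]
    funext t
    simp only [res, Finset.sum_apply]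

end apps

end

/-- `A²` for `A = ellOne S ω`: the linear span of all products `f * g` with `f, g ∈ A`. -/
def square (S : Set ℚ) (ω : ℚ → ℝ) : Set (S → ℂ) :=
  (Submodule.span ℂ {h : S → ℂ | ∃ f ∈ ellOne S ω, ∃ g ∈ ellOne S ω, h = conv S f g} :
    Set (S → ℂ))

/-- Every element of `A = ellOne S ω` is a sum of three products of elements of `A`. -/
def SumOfThreeProducts (S : Set ℚ) (ω : ℚ → ℝ) : Prop :=
  ∀ f ∈ ellOne S ω, ∃ b c : Fin 3 → S → ℂ, (∀ j, b j ∈ ellOne S ω) ∧ (∀ j, c j ∈ ellOne S ω) ∧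
    f = ∑ j, conv S (b j) (c j)

lemma three_of_good {S : Set ℚ} {ω : ℚ → ℝ} (h : Good S ω) : SumOfThreeProducts S ω := by
  intro f hf
  obtain ⟨b, hb, c, hc, _, hF⟩ := h (fun i => if i = 0 then f else 0)
    (fun i => by
      by_cases hi : i = 0
      · simpa [hi] using hf
      · simp only [hi, if_false]
        show Summable fun t : S => ‖(0 : S → ℂ) t‖ * ω t
        simp)
    (by
      refine tendsto_const_nhds.congr' ?_
      filter_upwards [eventually_gt_atTop 0] with i hi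
      have : i ≠ 0 := by omega
      simp [this])
  exact ⟨b, c 0, hb, hc 0, by simpa using hF 0⟩

lemma square_of_good {S : Set ℚ} {ω : ℚ → ℝ} (hω : ∀ t : S, 0 < ω t)
    (hsub : ∀ s t u : S, (s : ℚ) + t = u → ω u ≤ ω s * ω t)
    (h : Good S ω) : square S ω = ellOne S ω := by
  apply Set.Subset.antisymm
  · intro f hf
    refine Submodule.span_induction (p := fun f _ => f ∈ ellOne S ω) ?_ ?_ ?_ ?_ hf
    · rintro x ⟨f, hf, g, hg, rfl⟩
      exact conv_mem hω hsub hf hg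
    · show Summable fun t : S => ‖(0 : S → ℂ) t‖ * ω t
      simp
    · intro x y _ _ hx hy
      exact ellOne_add hω hx hy
    · intro a x _ hx
      exact ellOne_smul a hx
  · intro f hf
    obtain ⟨b, c, hb, hc, rfl⟩ := three_of_good h f hf
    exact Submodule.sum_mem _ fun j _ => Submodule.subset_span ⟨b j, hb j, c j, hc j, rfl⟩

/-- `A = A²` for `A = ℓ¹(ℚ⁺)`, `A = ℓ¹(ℚ⁺, e^{-t²})` and `A = ℓ¹(ℚ⁺ ∩ (0,1])`; moreover every
element of each of these algebras is a sum of three products. -/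
theorem result :
    (square (Ioi 0) (fun _ => 1) = ellOne (Ioi 0) (fun _ => 1) ∧
      square (Ioi 0) (fun t => Real.exp (-(t : ℝ) ^ 2)) =
        ellOne (Ioi 0) (fun t => Real.exp (-(t : ℝ) ^ 2)) ∧
      square (Ioc 0 1) (fun _ => 1) = ellOne (Ioc 0 1) (fun _ => 1)) ∧
    (SumOfThreeProducts (Ioi 0) (fun _ => 1) ∧
      SumOfThreeProducts (Ioi 0) (fun t => Real.exp (-(t : ℝ) ^ 2)) ∧
      SumOfThreeProducts (Ioc 0 1) (fun _ => 1)) := by
  refine ⟨⟨square_of_good (fun _ => one_pos) (fun _ _ _ _ => by norm_num) good_one, ?_,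
    square_of_good (fun _ => one_pos) (fun _ _ _ _ => by norm_num) good_trunc⟩,
    three_of_good good_one, three_of_good good_exp, three_of_good good_trunc⟩
  refine square_of_good (fun _ => Real.exp_pos _) ?_ good_exp
  intro s t u h
  rw [← Real.exp_add]
  apply Real.exp_le_exp.mpr
  have hs : (0 : ℝ) < ((s : ℚ) : ℝ) := by exact_mod_cast s.2
  have ht : (0 : ℝ) < ((t : ℚ) : ℝ) := by exact_mod_cast t.2
  have hu : ((u : ℚ) : ℝ) = ((s : ℚ) : ℝ) + ((t : ℚ) : ℝ) := by exact_mod_cast h.symm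
  rw [hu]
  nlinarith


end Pool.Agent.Results.MP_7607f9_an.SquareEqualsA
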